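import Pool.Agent.helper92.VSP.Defs

/-!
# Properties of the apolarity action
-/

set_option autoImplicit false

open MvPolynomial

noncomputable section

namespace Pool.Agent.BorderVSP

variable {σ M : Type} [Fintype σ]

/-- Auxiliary bilinear version of `apolar`. -/
def apolarL : MvPolynomial σ ℂ →ₗ[ℂ] MvPolynomial σ ℂ →ₗ[ℂ] MvPolynomial σ ℂ :=
  (basisMonomials σ ℂ).constr ℂ fun m =>
    (basisMonomials σ ℂ).constr ℂ fun n =>
      monomial (n - m) (∏ i : σ, ((n i).descFactorial (m i) : ℂ))

lemma apolarL_monomial_one (m n : σ →₀ ℕ) :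
    apolarL (monomial m (1 : ℂ)) (monomial n (1 : ℂ)) =
      monomial (n - m) (∏ i : σ, ((n i).descFactorial (m i) : ℂ)) := by
  have h1 : (monomial m (1 : ℂ) : MvPolynomial σ ℂ) = basisMonomials σ ℂ m := by
    rw [coe_basisMonomials]
  have h2 : (monomial n (1 : ℂ) : MvPolynomial σ ℂ) = basisMonomials σ ℂ n := by
    rw [coe_basisMonomials]
  rw [h1, h2, apolarL, Module.Basis.constr_basis, Module.Basis.constr_basis]

lemma apolarL_monomial (m n : σ →₀ ℕ) (a b : ℂ) :
    apolarL (monomial m a) (monomial n b) =
      monomial (n - m) (a * b * ∏ i : σ, ((n i).descFactorial (m i) : ℂ)) := by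
  have h1 : (monomial m a : MvPolynomial σ ℂ) = a • monomial m (1 : ℂ) := by
    rw [smul_monomial, smul_eq_mul, mul_one]
  have h2 : (monomial n b : MvPolynomial σ ℂ) = b • monomial n (1 : ℂ) := by
    rw [smul_monomial, smul_eq_mul, mul_one]
  rw [h1, h2, LinearMap.map_smul, LinearMap.map_smul, LinearMap.smul_apply,
    apolarL_monomial_one, smul_monomial, smul_monomial, smul_eq_mul, smul_eq_mul]
  congr 1
  ring

lemma apolar_eq_apolarL (g F : MvPolynomial σ ℂ) : apolar g F = apolarL g F := by
  conv_rhs => rw [as_sum g, as_sum F]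
  rw [apolar, map_sum apolarL, LinearMap.sum_apply]
  refine Finset.sum_congr rfl fun m _ => ?_
  rw [map_sum]
  exact Finset.sum_congr rfl fun n _ => (apolarL_monomial _ _ _ _).symm

lemma apolar_monomial (m n : σ →₀ ℕ) (a b : ℂ) :
    apolar (monomial m a) (monomial n b) =
      monomial (n - m) (a * b * ∏ i : σ, ((n i).descFactorial (m i) : ℂ)) := by
  rw [apolar_eq_apolarL, apolarL_monomial]

lemma apolar_add_left (g g' F : MvPolynomial σ ℂ) :
    apolar (g + g') F = apolar g F + apolar g' F := by
  simp [apolar_eq_apolarL]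

lemma apolar_add_right (g F F' : MvPolynomial σ ℂ) :
    apolar g (F + F') = apolar g F + apolar g F' := by
  simp [apolar_eq_apolarL]

lemma apolar_zero_left (F : MvPolynomial σ ℂ) : apolar 0 F = 0 := by
  simp [apolar_eq_apolarL]

lemma apolar_zero_right (g : MvPolynomial σ ℂ) : apolar g 0 = 0 := by
  simp [apolar_eq_apolarL]

lemma apolar_sub_left (g g' F : MvPolynomial σ ℂ) :
    apolar (g - g') F = apolar g F - apolar g' F := by
  simp [apolar_eq_apolarL]

lemma apolar_smul_left (c : ℂ) (g F : MvPolynomial σ ℂ) :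
    apolar (c • g) F = c • apolar g F := by
  simp [apolar_eq_apolarL]

lemma apolar_smul_right (c : ℂ) (g F : MvPolynomial σ ℂ) :
    apolar g (c • F) = c • apolar g F := by
  simp [apolar_eq_apolarL]

lemma apolar_C_mul_left (c : ℂ) (g F : MvPolynomial σ ℂ) :
    apolar (C c * g) F = C c * apolar g F := by
  rw [← smul_eq_C_mul, apolar_smul_left, smul_eq_C_mul]

lemma apolar_C_mul_right (c : ℂ) (g F : MvPolynomial σ ℂ) :
    apolar g (C c * F) = C c * apolar g F := by
  rw [← smul_eq_C_mul, apolar_smul_right, smul_eq_C_mul]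

lemma apolar_sum_left {ι : Type*} (s : Finset ι) (g : ι → MvPolynomial σ ℂ)
    (F : MvPolynomial σ ℂ) : apolar (∑ i ∈ s, g i) F = ∑ i ∈ s, apolar (g i) F := by
  simp [apolar_eq_apolarL]

lemma apolar_sum_right {ι : Type*} (s : Finset ι) (g : MvPolynomial σ ℂ)
    (F : ι → MvPolynomial σ ℂ) : apolar g (∑ i ∈ s, F i) = ∑ i ∈ s, apolar g (F i) := by
  simp [apolar_eq_apolarL]

/-- The apolarity action is a module structure. -/
lemma apolar_mul (g h F : MvPolynomial σ ℂ) : apolar (g * h) F = apolar g (apolar h F) := by
  induction g using MvPolynomial.induction_on' with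
  | add p q hp hq => rw [add_mul, apolar_add_left, apolar_add_left, hp, hq]
  | monomial m a =>
    induction h using MvPolynomial.induction_on' with
    | add p q hp hq =>
      rw [mul_add, apolar_add_left, apolar_add_left, apolar_add_right, hp, hq]
    | monomial m' a' =>
      induction F using MvPolynomial.induction_on' with
      | add p q hp hq =>
        rw [apolar_add_right, apolar_add_right, apolar_add_right, hp, hq]
      | monomial n b =>
        rw [monomial_mul, apolar_monomial, apolar_monomial, apolar_monomial]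
        have h1 : n - (m + m') = n - m' - m := by
          ext i; simp only [Finsupp.coe_tsub, Finsupp.coe_add, Pi.sub_apply, Pi.add_apply]; omega
        have h2 : (∏ i : σ, ((n i).descFactorial ((m + m') i) : ℂ)) =
            (∏ i : σ, (((n - m') i).descFactorial (m i) : ℂ)) *
              ∏ i : σ, ((n i).descFactorial (m' i) : ℂ) := by
          rw [← Finset.prod_mul_distrib]
          refine Finset.prod_congr rfl fun i _ => ?_
          rw [← Nat.cast_mul]
          congr 1
          have := Nat.descFactorial_mul_descFactorial (k := m' i) (m := m i + m' i) (n := n i)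
            (Nat.le_add_left _ _)
          rw [Nat.add_sub_cancel] at this
          simpa using this.symm
        rw [h1, h2]
        congr 1
        ring

/-- The variable `y_i` acts as the derivative `∂/∂x_i`. -/
lemma apolar_X (i : σ) (F : MvPolynomial σ ℂ) : apolar (X i) F = pderiv i F := by
  classical
  induction F using MvPolynomial.induction_on' with
  | add p q hp hq => rw [apolar_add_right, hp, hq, map_add]
  | monomial n b =>
    rw [X, apolar_monomial, pderiv_monomial]
    congr 1
    rw [Finset.prod_eq_single i]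
    · simp
    · intro j _ hj
      rw [Finsupp.single_eq_of_ne hj]
      simp
    · intro h; exact absurd (Finset.mem_univ i) h

lemma apolar_C (c : ℂ) (F : MvPolynomial σ ℂ) : apolar (C c) F = C c * F := by
  induction F using MvPolynomial.induction_on' with
  | add p q hp hq => rw [apolar_add_right, hp, hq, mul_add]
  | monomial n b =>
    rw [← monomial_zero', apolar_monomial, monomial_mul]
    simp

lemma apolar_one (F : MvPolynomial σ ℂ) : apolar 1 F = F := by
  rw [← C_1, apolar_C, C_1, one_mul]

/-- The constant coefficient of `x^n · F` recovers the coefficient of `F` at `n`. -/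
lemma coeff_zero_apolar_monomial (n : σ →₀ ℕ) (F : MvPolynomial σ ℂ) :
    coeff 0 (apolar (monomial n 1) F) = (∏ i : σ, ((n i).factorial : ℂ)) * coeff n F := by
  classical
  induction F using MvPolynomial.induction_on' with
  | add p q hp hq => rw [apolar_add_right, coeff_add, coeff_add, hp, hq, mul_add]
  | monomial n' b =>
    rw [apolar_monomial, coeff_monomial, coeff_monomial]
    by_cases h : n' = n
    · subst h
      simp [Nat.descFactorial_self, mul_comm]
    · rw [if_neg h]
      by_cases h2 : n' - n = 0
      · rw [if_pos h2]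
        have hle : n' ≤ n := tsub_eq_zero_iff_le.1 h2
        obtain ⟨i, hi⟩ : ∃ i, n' i < n i := by
          by_contra hcon
          push Not at hcon
          exact h (le_antisymm hle hcon)
        rw [Finset.prod_eq_zero (Finset.mem_univ i)]
        · simp
        · rw [Nat.descFactorial_eq_zero_iff_lt.2 hi, Nat.cast_zero]
      · rw [if_neg h2]; simp

variable [AddCommGroup M] (w : σ → M)

/-- `S_u · T_v ⊆ T_{v - u}`. -/
lemma weight_of_coeff_apolar_ne_zero {u v : M} {g F : MvPolynomial σ ℂ}
    (hg : g ∈ piece w u) (hF : F ∈ piece w v) {n : σ →₀ ℕ}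
    (hn : coeff n (apolar g F) ≠ 0) : Finsupp.weight w n + u = v := by
  classical
  rw [apolar, coeff_sum] at hn
  obtain ⟨m, hm, hn⟩ := Finset.exists_ne_zero_of_sum_ne_zero hn
  rw [coeff_sum] at hn
  obtain ⟨k, hk, hn⟩ := Finset.exists_ne_zero_of_sum_ne_zero hn
  rw [coeff_monomial] at hn
  split_ifs at hn with h
  · have hprod := right_ne_zero_of_mul hn
    have hle : m ≤ k := by
      intro i
      by_contra hcon
      push Not at hcon
      exact hprod (Finset.prod_eq_zero (Finset.mem_univ i)
        (by rw [Nat.descFactorial_eq_zero_iff_lt.2 hcon, Nat.cast_zero]))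
    have h1 : Finsupp.weight w m = u := hg (mem_support_iff.1 hm)
    have h2 : Finsupp.weight w k = v := hF (mem_support_iff.1 hk)
    rw [← h1, ← h2, ← h, ← map_add, tsub_add_cancel_of_le hle]
  · exact absurd rfl hn

/-- If all multiples of `g` in degree `v` annihilate `F ∈ T_v`, then so does `g`. -/
lemma apolar_eq_zero_of_forall {u v : M} {g F : MvPolynomial σ ℂ}
    (hg : g ∈ piece w u) (hF : F ∈ piece w v)
    (H : ∀ n : σ →₀ ℕ, Finsupp.weight w n + u = v → apolar (monomial n 1 * g) F = 0) :
    apolar g F = 0 := by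
  ext n
  rw [coeff_zero]
  by_contra hn
  have hw := weight_of_coeff_apolar_ne_zero w hg hF hn
  have h1 := coeff_zero_apolar_monomial n (apolar g F)
  rw [← apolar_mul, H n hw, coeff_zero] at h1
  have h2 : (∏ i : σ, ((n i).factorial : ℂ)) ≠ 0 :=
    Finset.prod_ne_zero_iff.2 fun i _ => Nat.cast_ne_zero.2 (Nat.factorial_ne_zero _)
  exact (mul_ne_zero h2 hn) h1.symm

/-- Apolarity: if `F` is a sum of forms in the cone over the points `Z`, then the ideal of `Z`
annihilates `F`. -/
lemma apolar_eq_zero_of_mem_idealOfPoints {v : M} {r : ℕ} {Z : Fin r → σ → ℂ}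
    {L : Fin r → MvPolynomial σ ℂ} {c : Fin r → ℂ} (hL : ∀ i, L i ∈ piece w v)
    (hc : ∀ i, ∀ g ∈ piece w v, apolar g (L i) = C (c i * eval (Z i) g))
    {f : MvPolynomial σ ℂ} (hf : f ∈ idealOfPoints w Z) : apolar f (∑ i, L i) = 0 := by
  have hF : (∑ i, L i) ∈ piece w v := Submodule.sum_mem _ fun i _ => hL i
  refine Submodule.span_induction (p := fun f _ => apolar f (∑ i, L i) = 0) ?_ ?_ ?_ ?_ hf
  · rintro f ⟨⟨u, hu⟩, hz⟩
    refine apolar_eq_zero_of_forall w hu hF fun n hn => ?_
    have hmem : monomial n 1 * f ∈ piece w v := by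
      rw [← hn]
      exact (isWeightedHomogeneous_monomial w n (1 : ℂ) rfl).mul hu
    rw [apolar_sum_right]
    refine Finset.sum_eq_zero fun i _ => ?_
    rw [hc i _ hmem, map_mul (eval (Z i)), hz i, mul_zero, mul_zero, C_0]
  · exact apolar_zero_left _
  · intro f g _ _ hf hg
    rw [apolar_add_left, hf, hg, add_zero]
  · intro a f _ hf
    rw [smul_eq_mul, apolar_mul, hf, apolar_zero_right]

end Pool.Agent.BorderVSP
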