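import Pool.Agent.helper92.VSP.Saturated

/-!
# The border rank of the example is four
-/

set_option autoImplicit false

open MvPolynomial

noncomputable section

namespace Pool.Agent.BorderVSP

lemma exampleForm_mem : exampleForm ∈ piece w12 (2, 2) := by
  rw [exampleForm_eq_sat]
  exact Submodule.sum_mem _ fun i _ => coneForm_mem _ _

lemma coneForm_mem_coneOver {x : Fin 2 ⊕ Fin 3 → ℂ} (hx : IsPoint B12 x) (c : ℂ) :
    coneForm c x ∈ coneOver w12 B12 (2, 2) :=
  ⟨coneForm_mem c x, x, hx, 4 * c, apolar_coneForm c x⟩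

lemma exampleForm_mem_secantCone : exampleForm ∈ secantCone w12 B12 (2, 2) 4 := by
  refine ⟨exampleForm_mem, fun P hP => ?_⟩
  rw [exampleForm_eq_sat]
  exact hP _ fun i => coneForm_mem_coneOver (satPts_good.distinct.1 i) _

/-- The four monomials used for a catalecticant minor. -/
def catIdx : Fin 4 → Fin 2 × Fin 3 := ![(0, 0), (0, 1), (0, 2), (1, 1)]

/-- Exponent of the monomial `y_i z_j`. -/
def catExp (a : Fin 4) : Fin 2 ⊕ Fin 3 →₀ ℕ :=
  Finsupp.single (Sum.inl (catIdx a).1) 1 + Finsupp.single (Sum.inr (catIdx a).2) 1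

lemma monomial_catExp (a : Fin 4) :
    (monomial (catExp a) (1 : ℂ) : S12) = Y (catIdx a).1 * W (catIdx a).2 := by
  change _ = monomial _ 1 * monomial _ 1
  rw [catExp, monomial_mul, one_mul]

/-- The catalecticant minor, as a polynomial in the coefficients of a form. -/
def catMinor : MvPolynomial (Fin 2 ⊕ Fin 3 →₀ ℕ) ℂ :=
  Matrix.det (Matrix.of fun a b : Fin 4 =>
    C (∏ s : Fin 2 ⊕ Fin 3, (((catExp a + catExp b) s).factorial : ℂ)) *
      X (catExp a + catExp b))

lemma eval_catMinor (G : S12) : eval (fun n => coeff n G) catMinor =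
    Matrix.det (Matrix.of fun a b : Fin 4 =>
      coeff 0 (apolar (monomial (catExp a + catExp b) 1) G)) := by
  rw [catMinor, RingHom.map_det]
  congr 1
  ext a b
  rw [RingHom.mapMatrix_apply, Matrix.map_apply, Matrix.of_apply, Matrix.of_apply,
    coeff_zero_apolar_monomial, map_mul, eval_C, eval_X]

lemma catMonomial_mem (a b : Fin 4) :
    (monomial (catExp a + catExp b) (1 : ℂ) : S12) ∈ piece w12 (2, 2) := by
  have h : (monomial (catExp a + catExp b) (1 : ℂ) : S12) =
      monomial (catExp a) 1 * monomial (catExp b) 1 := by rw [monomial_mul, one_mul]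
  rw [h, monomial_catExp, monomial_catExp]
  exact mul_mem_piece (mem_piece_YW _ _) (mem_piece_YW _ _) (by simp)

/-- The minor vanishes on sums of fewer than four elements of the cone. -/
lemma catMinor_eq_zero {s : ℕ} (hs : s < 4) {L : Fin s → S12}
    (hL : ∀ i, L i ∈ coneOver w12 B12 (2, 2)) :
    eval (fun n => coeff n (∑ i, L i)) catMinor = 0 := by
  rw [eval_catMinor]
  choose x hx c hc using fun i => (hL i).2
  let A : Matrix (Fin 4) (Fin s) ℂ := Matrix.of fun a i => eval (x i) (monomial (catExp a) (1 : ℂ))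
  let D : Matrix (Fin s) (Fin 4) ℂ :=
    Matrix.of fun i b => c i * eval (x i) (monomial (catExp b) (1 : ℂ))
  have hmul : (Matrix.of fun a b : Fin 4 =>
      coeff 0 (apolar (monomial (catExp a + catExp b) 1) (∑ i, L i))) = A * D := by
    ext a b
    rw [Matrix.of_apply, Matrix.mul_apply, apolar_sum_right, coeff_sum]
    refine Finset.sum_congr rfl fun i _ => ?_
    rw [hc i _ (catMonomial_mem a b), coeff_C, if_pos rfl]
    have h : (monomial (catExp a + catExp b) (1 : ℂ) : S12) =
        monomial (catExp a) 1 * monomial (catExp b) 1 := by rw [monomial_mul, one_mul]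
    rw [h, map_mul]
    change _ = eval (x i) (monomial (catExp a) (1 : ℂ)) *
      (c i * eval (x i) (monomial (catExp b) (1 : ℂ)))
    ring
  rw [hmul]
  by_contra hne
  have h1 : (A * D).rank = 4 := by
    have := Matrix.rank_of_isUnit (A * D) ((Matrix.isUnit_iff_isUnit_det _).2
      (isUnit_iff_ne_zero.2 hne))
    simpa using this
  have h2 : (A * D).rank ≤ s := by
    refine (Matrix.rank_mul_le_left A D).trans ?_
    simpa using A.rank_le_card_width
  omega

lemma pderiv_four (s : Fin 2 ⊕ Fin 3) : pderiv s (4 : S12) = 0 := by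
  rw [← map_ofNat (C : ℂ →+* S12) 4]; exact pderiv_C

lemma coeff_four : coeff 0 (4 : S12) = 4 := by
  rw [← map_ofNat (C : ℂ →+* S12) 4, coeff_C, if_pos rfl]

lemma catMinor_exampleForm : eval (fun n => coeff n exampleForm) catMinor ≠ 0 := by
  rw [eval_catMinor]
  have h : (Matrix.of fun a b : Fin 4 =>
      coeff 0 (apolar (monomial (catExp a + catExp b) 1) exampleForm)) =
      !![8, 4, 0, 4; 4, 4, 0, 4; 0, 0, 4, 0; 4, 4, 0, 8] := by
    ext a b
    rw [Matrix.of_apply]
    have h : (monomial (catExp a + catExp b) (1 : ℂ) : S12) =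
        monomial (catExp a) 1 * monomial (catExp b) 1 := by rw [monomial_mul, one_mul]
    rw [h, monomial_catExp, monomial_catExp, apolar_mul, apolar_mul, apolar_mul, apolar_X,
      apolar_X, apolar_X, apolar_X, pderiv_YW]
    fin_cases a <;> fin_cases b <;>
      simp [catIdx, pderiv_X, pderiv_four, coeff_four] <;> norm_num
  rw [h]
  simp [Matrix.det_succ_row_zero, Fin.sum_univ_succ, Fin.succAbove]
  norm_num

theorem isBorderRank_exampleForm : IsBorderRank w12 B12 (2, 2) exampleForm 4 := by
  refine ⟨exampleForm_mem_secantCone, fun s hs => ?_⟩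
  by_contra hlt
  push Not at hlt
  exact catMinor_exampleForm (hs.2 catMinor fun L hL => catMinor_eq_zero hlt hL)

end Pool.Agent.BorderVSP
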