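import Pool.Agent.helper92.VSP.Instances

/-!
# Saturated ideals apolar to the example
-/

set_option autoImplicit false

open MvPolynomial

noncomputable section

namespace Pool.Agent.BorderVSP

lemma pderiv_two (s : Fin 2 ⊕ Fin 3) : pderiv s (2 : S12) = 0 := by
  rw [← map_ofNat (C : ℂ →+* S12) 2]; exact pderiv_C

/-- Second order derivatives of the example. -/
lemma pderiv_YW (i : Fin 2) (j : Fin 3) :
    pderiv (Sum.inl i) (pderiv (Sum.inr j) exampleForm) =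
      (![![4 * Y 0 * W 0 + 4 * (Y 0 + Y 1) * (W 0 + W 1), 4 * (Y 0 + Y 1) * (W 0 + W 1),
          4 * Y 0 * W 2],
        ![4 * (Y 0 + Y 1) * (W 0 + W 1), 4 * Y 1 * W 1 + 4 * (Y 0 + Y 1) * (W 0 + W 1), 0]] i j) := by
  fin_cases i <;> fin_cases j <;>
    simp [exampleForm_expand, pderiv_X, pderiv_two] <;> try ring

lemma pderiv_WW (i j : Fin 3) :
    pderiv (Sum.inr i) (pderiv (Sum.inr j) exampleForm) =
      (![![2 * Y 0 ^ 2 + 2 * (Y 0 + Y 1) ^ 2, 2 * (Y 0 + Y 1) ^ 2, 0],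
        ![2 * (Y 0 + Y 1) ^ 2, 2 * Y 1 ^ 2 + 2 * (Y 0 + Y 1) ^ 2, 0],
        ![0, 0, 2 * Y 0 ^ 2]] i j) := by
  fin_cases i <;> fin_cases j <;>
    simp [exampleForm_expand, pderiv_X, pderiv_two] <;> try ring

lemma exists_linW {f : S12} (hf : f ∈ piece w12 (0, 1)) :
    ∃ a b c : ℂ, f = C a * W 0 + C b * W 1 + C c * W 2 := by
  obtain ⟨a, ha⟩ := exists_linear_inr (m := 1) (n := 2) hf
  exact ⟨a 0, a 1, a 2, by rw [ha]; exact Fin.sum_univ_three _⟩

lemma exists_Y_mul_add {u : ℤ × ℤ} (hu : 0 ≤ u.1) {f : S12} (hf : f ∈ piece w12 ((1, 0) + u)) :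
    ∃ p ∈ piece w12 u, ∃ q ∈ piece w12 u, f = Y 0 * p + Y 1 * q := by
  obtain ⟨g, hg, ha⟩ := exists_sum_inl (m := 1) (n := 2) hu hf
  exact ⟨g 0, hg 0, g 1, hg 1, by rw [ha]; exact Fin.sum_univ_two _⟩

lemma exists_W_mul_add {u : ℤ × ℤ} (hu : 0 ≤ u.2) {f : S12} (hf : f ∈ piece w12 ((0, 1) + u)) :
    ∃ p ∈ piece w12 u, ∃ q ∈ piece w12 u, ∃ r ∈ piece w12 u,
      f = W 0 * p + W 1 * q + W 2 * r := by
  obtain ⟨g, hg, ha⟩ := exists_sum_inr (m := 1) (n := 2) hu hf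
  exact ⟨g 0, hg 0, g 1, hg 1, g 2, hg 2, by rw [ha]; exact Fin.sum_univ_three _⟩

/-- The annihilator of the example in degree `(1, 1)`. -/
lemma ann_11 {g : S12} (hg : g ∈ piece w12 (1, 1)) (h : apolar g exampleForm = 0) :
    ∃ α β : ℂ, g = C α * (Y 1 * W 2) + C β * (Y 0 * W 1 - Y 1 * W 0) := by
  obtain ⟨p, hp, q, hq, rfl⟩ := exists_Y_mul_add (u := (0, 1)) (by simp) (by simpa using hg)
  obtain ⟨a, b, c, rfl⟩ := exists_linW hp
  obtain ⟨a', b', c', rfl⟩ := exists_linW hq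
  have hexp : apolar (Y 0 * (C a * W 0 + C b * W 1 + C c * W 2) +
      Y 1 * (C a' * W 0 + C b' * W 1 + C c' * W 2)) exampleForm =
      C a * (4 * Y 0 * W 0 + 4 * (Y 0 + Y 1) * (W 0 + W 1)) +
      C b * (4 * (Y 0 + Y 1) * (W 0 + W 1)) + C c * (4 * Y 0 * W 2) +
      C a' * (4 * (Y 0 + Y 1) * (W 0 + W 1)) +
      C b' * (4 * Y 1 * W 1 + 4 * (Y 0 + Y 1) * (W 0 + W 1)) := by
    simp only [apolar_add_left, apolar_mul, apolar_C, apolar_X]
    simp only [map_add, pderiv_C_mul, pderiv_YW]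
    simp
    ring
  rw [hexp] at h
  have e1 := congrArg (eval (Sum.elim ![1, 0] ![0, 0, 1] : Fin 2 ⊕ Fin 3 → ℂ)) h
  have e2 := congrArg (eval (Sum.elim ![0, 1] ![0, 1, 0] : Fin 2 ⊕ Fin 3 → ℂ)) h
  have e3 := congrArg (eval (Sum.elim ![0, 1] ![1, 0, 0] : Fin 2 ⊕ Fin 3 → ℂ)) h
  have e4 := congrArg (eval (Sum.elim ![1, 0] ![1, 0, 0] : Fin 2 ⊕ Fin 3 → ℂ)) h
  simp at e1 e2 e3 e4
  have h11 : b' = 0 := by linear_combination (e2 - e3) / 4
  have h00 : a = 0 := by linear_combination (e4 - e3) / 4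
  have h10 : a' = -b := by linear_combination e3 / 4 - h00 - h11
  refine ⟨c', b, ?_⟩
  rw [e1, h11, h00, h10]
  simp
  ring

/-- The annihilator of the example in degree `(0, 2)`. -/
lemma ann_02 {g : S12} (hg : g ∈ piece w12 (0, 2)) (h : apolar g exampleForm = 0) :
    ∃ α β γ : ℂ, g = C α * (W 0 ^ 2 - W 0 * W 1 - W 2 ^ 2) + C β * (W 0 * W 2) +
      C γ * (W 1 * W 2) := by
  obtain ⟨p, hp, q, hq, r, hr, rfl⟩ := exists_W_mul_add (u := (0, 1)) (by simp)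
    (by simpa using hg)
  obtain ⟨a, b, c, rfl⟩ := exists_linW hp
  obtain ⟨a', b', c', rfl⟩ := exists_linW hq
  obtain ⟨a'', b'', c'', rfl⟩ := exists_linW hr
  have hexp : apolar (W 0 * (C a * W 0 + C b * W 1 + C c * W 2) +
      W 1 * (C a' * W 0 + C b' * W 1 + C c' * W 2) +
      W 2 * (C a'' * W 0 + C b'' * W 1 + C c'' * W 2)) exampleForm =
      C a * (2 * Y 0 ^ 2 + 2 * (Y 0 + Y 1) ^ 2) + C (b + a') * (2 * (Y 0 + Y 1) ^ 2) +
      C b' * (2 * Y 1 ^ 2 + 2 * (Y 0 + Y 1) ^ 2) + C c'' * (2 * Y 0 ^ 2) := by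
    simp only [apolar_add_left, apolar_mul, apolar_C, apolar_X]
    simp only [map_add, pderiv_C_mul, pderiv_WW]
    simp
    ring
  rw [hexp] at h
  have e1 := congrArg (eval (Sum.elim ![1, -1] ![0, 0, 0] : Fin 2 ⊕ Fin 3 → ℂ)) h
  have e2 := congrArg (eval (Sum.elim ![1, 0] ![0, 0, 0] : Fin 2 ⊕ Fin 3 → ℂ)) h
  have e3 := congrArg (eval (Sum.elim ![0, 1] ![0, 0, 0] : Fin 2 ⊕ Fin 3 → ℂ)) h
  simp at e1 e2 e3
  have hb' : b' = 0 := by linear_combination (e3 - e2 + e1) / 4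
  have ha' : a' = -a - b := by linear_combination (e2 - e1) / 2
  have hc'' : c'' = -a := by linear_combination e1 / 2 - hb'
  refine ⟨a, c + a'', c' + b'', ?_⟩
  rw [hb', ha', hc'']
  simp
  ring

/-- The ideal of multipliers of `f` into `J`. -/
def mulInto (J : Ideal S12) (f : S12) : Ideal S12 :=
  Submodule.comap (LinearMap.toSpanSingleton S12 S12 f) J

lemma mem_mulInto {J : Ideal S12} {f b : S12} : b ∈ mulInto J f ↔ b * f ∈ J := by
  rw [mulInto, Submodule.mem_comap, LinearMap.toSpanSingleton_apply, smul_eq_mul]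

lemma mem_of_Y {J : Ideal S12} (hsat : IsSaturated B12 J) {f : S12} (h : ∀ i, Y i * f ∈ J) :
    f ∈ J := by
  refine hsat f ⟨1, fun b hb => ?_⟩
  rw [pow_one] at hb
  have hle : Ideal.span (Set.range fun i : Fin 2 => Y i) ≤ mulInto J f := by
    rw [Ideal.span_le]
    rintro _ ⟨i, rfl⟩
    exact mem_mulInto.2 (h i)
  exact mem_mulInto.1 (hle hb.1)

lemma mem_of_WW {J : Ideal S12} (hsat : IsSaturated B12 J) {f : S12}
    (h : ∀ i j, W i * W j * f ∈ J) : f ∈ J := by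
  refine hsat f ⟨2, fun b hb => ?_⟩
  have hle : (Ideal.span (Set.range fun i : Fin 3 => W i)) ^ 2 ≤ mulInto J f := by
    rw [pow_two, Ideal.span_mul_span', Ideal.span_le]
    rintro _ ⟨_, ⟨i, rfl⟩, _, ⟨j, rfl⟩, rfl⟩
    exact mem_mulInto.2 (h i j)
  exact mem_mulInto.1 (hle (Ideal.pow_right_mono (inf_le_right : B12 ≤ _) 2 hb))

/-- Every point of the multigraded Hilbert scheme has no elements in degree `(3, 0)`. -/
lemma eq_zero_of_mem_30 (J : MultiHilb w12 (genericHF w12 4)) {f : S12} (hf : f ∈ J.1)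
    (hf' : f ∈ piece w12 (3, 0)) : f = 0 := by
  have h1 := finrank_idealPiece_of_hilb w12 J (3, 0)
  rw [frameSize, genericHF, finrank_piece_30] at h1
  have h2 : idealPiece w12 J.1 (3, 0) = ⊥ := by
    rw [← Submodule.finrank_eq_zero (R := ℂ)]
    exact h1
  have h3 : f ∈ idealPiece w12 J.1 (3, 0) := ⟨hf, hf'⟩
  rw [h2] at h3
  exact (Submodule.mem_bot ℂ).1 h3

/-- The degree `(1, 1)` part of an apolar ideal with the generic Hilbert function. -/
lemma mem_11 (J : MultiHilb w12 (genericHF w12 4)) (hann : ∀ g ∈ J.1, apolar g exampleForm = 0) :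
    Y 1 * W 2 ∈ J.1 ∧ Y 0 * W 1 - Y 1 * W 0 ∈ J.1 := by
  classical
  have h1 := finrank_idealPiece_of_hilb w12 J (1, 1)
  rw [frameSize, genericHF, finrank_piece_11] at h1
  let v : Fin 2 → S12 := ![Y 1 * W 2, Y 0 * W 1 - Y 1 * W 0]
  have hle : idealPiece w12 J.1 (1, 1) ≤ Submodule.span ℂ (Set.range v) := by
    rintro g ⟨hg, hg'⟩
    obtain ⟨α, β, rfl⟩ := ann_11 hg' (hann g hg)
    rw [Submodule.mem_span_range_iff_exists_fun]
    exact ⟨![α, β], by simp [v, smul_eq_C_mul]⟩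
  have hfin : Module.finrank ℂ (Submodule.span ℂ (Set.range v)) ≤ 2 := by
    have := finrank_range_le_card (R := ℂ) v
    simpa [Set.finrank] using this
  have hfd : FiniteDimensional ℂ (Submodule.span ℂ (Set.range v)) :=
    FiniteDimensional.span_of_finite ℂ (Set.finite_range v)
  have heq : idealPiece w12 J.1 (1, 1) = Submodule.span ℂ (Set.range v) := by
    refine Submodule.eq_of_le_of_finrank_le hle ?_
    rw [h1]
    exact hfin
  have hv : ∀ i, v i ∈ idealPiece w12 J.1 (1, 1) := fun i => by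
    rw [heq]; exact Submodule.subset_span ⟨i, rfl⟩
  exact ⟨(hv 0).1, (hv 1).1⟩

/-- Every saturated ideal in the border VSP of the example contains `z₀ z₂`. -/
theorem W0W2_mem_of_saturated (J : MultiHilb w12 (genericHF w12 4))
    (hann : ∀ g ∈ J.1, apolar g exampleForm = 0) (hsat : IsSaturated B12 J.1) :
    W 0 * W 2 ∈ J.1 := by
  obtain ⟨ha, hb⟩ := mem_11 J hann
  -- `z₁ z₂ ∈ J`
  have h12 : W 1 * W 2 ∈ J.1 := by
    refine mem_of_Y hsat fun i => ?_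
    fin_cases i
    · have h : Y 0 * (W 1 * W 2) = W 2 * (Y 0 * W 1 - Y 1 * W 0) + W 0 * (Y 1 * W 2) := by ring
      change Y 0 * (W 1 * W 2) ∈ J.1
      rw [h]
      exact J.1.add_mem (J.1.mul_mem_left _ hb) (J.1.mul_mem_left _ ha)
    · have h : Y 1 * (W 1 * W 2) = W 1 * (Y 1 * W 2) := by ring
      change Y 1 * (W 1 * W 2) ∈ J.1
      rw [h]
      exact J.1.mul_mem_left _ ha
  -- another element of degree `(0, 2)`
  have h1 := finrank_idealPiece_of_hilb w12 J (0, 2)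
  rw [frameSize, genericHF, finrank_piece_02] at h1
  have hex : ∃ c ∈ idealPiece w12 J.1 (0, 2), c ∉ Submodule.span ℂ {(W 1 * W 2 : S12)} := by
    by_contra hcon
    push Not at hcon
    have hle : idealPiece w12 J.1 (0, 2) ≤ Submodule.span ℂ {(W 1 * W 2 : S12)} := hcon
    have := Submodule.finrank_mono hle
    rw [h1] at this
    have h2 : Module.finrank ℂ (Submodule.span ℂ {(W 1 * W 2 : S12)}) = 1 :=
      finrank_span_singleton (mul_ne_zero (X_ne_zero _) (X_ne_zero _))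
    have h3 := this.trans (le_of_eq h2)
    norm_num at h3
  obtain ⟨c, ⟨hc, hc'⟩, hcs⟩ := hex
  obtain ⟨α, β, γ, rfl⟩ := ann_02 hc' (hann c hc)
  by_cases hα : α = 0
  · subst hα
    have hβ : β ≠ 0 := by
      rintro rfl
      apply hcs
      rw [Submodule.mem_span_singleton]
      exact ⟨γ, by simp [smul_eq_C_mul]⟩
    have h2 : (W 0 * W 2 : S12) = C β⁻¹ * ((C 0 * (W 0 ^ 2 - W 0 * W 1 - W 2 ^ 2) +
        C β * (W 0 * W 2) + C γ * (W 1 * W 2)) - C γ * (W 1 * W 2)) := by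
      have h3 : (C β⁻¹ * C β : S12) = 1 := by rw [← C_mul, inv_mul_cancel₀ hβ, C_1]
      rw [C_0]
      linear_combination (-(W 0 * W 2)) * h3
    rw [h2]
    exact J.1.mul_mem_left _ (J.1.sub_mem hc (J.1.mul_mem_left _ h12))
  · exfalso
    set a : S12 := Y 1 * W 2 with ha_def
    set b : S12 := Y 0 * W 1 - Y 1 * W 0 with hb_def
    set δ : S12 := C α⁻¹ * C β with hδ
    -- normalised element of degree `(0, 2)`
    have hc0 : W 0 ^ 2 - W 0 * W 1 - W 2 ^ 2 + δ * (W 0 * W 2) ∈ J.1 := by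
      have h3 : (C α⁻¹ * C α : S12) = 1 := by rw [← C_mul, inv_mul_cancel₀ hα, C_1]
      have h2 : W 0 ^ 2 - W 0 * W 1 - W 2 ^ 2 + δ * (W 0 * W 2) =
          C α⁻¹ * ((C α * (W 0 ^ 2 - W 0 * W 1 - W 2 ^ 2) +
          C β * (W 0 * W 2) + C γ * (W 1 * W 2)) - C γ * (W 1 * W 2)) := by
        rw [hδ]
        linear_combination (-(W 0 ^ 2 - W 0 * W 1 - W 2 ^ 2)) * h3
      rw [h2]
      exact J.1.mul_mem_left _ (J.1.sub_mem hc (J.1.mul_mem_left _ h12))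
    have he : Y 1 * W 0 * (W 0 - W 1) ∈ J.1 := by
      have h2 : Y 1 * W 0 * (W 0 - W 1) =
          Y 1 * (W 0 ^ 2 - W 0 * W 1 - W 2 ^ 2 + δ * (W 0 * W 2)) + (W 2 - δ * W 0) * a := by
        rw [ha_def]; ring
      rw [h2]
      exact J.1.add_mem (J.1.mul_mem_left _ hc0) (J.1.mul_mem_left _ ha)
    have hq : Y 1 * (Y 0 - Y 1) * W 0 ^ 2 ∈ J.1 := by
      have h2 : Y 1 * (Y 0 - Y 1) * W 0 ^ 2 = Y 0 * (Y 1 * W 0 * (W 0 - W 1)) + Y 1 * W 0 * b := by
        rw [hb_def]; ring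
      rw [h2]
      exact J.1.add_mem (J.1.mul_mem_left _ he) (J.1.mul_mem_left _ hb)
    have h00 : W 0 * W 0 * (Y 0 * Y 1 * (Y 0 - Y 1)) ∈ J.1 := by
      have h2 : W 0 * W 0 * (Y 0 * Y 1 * (Y 0 - Y 1)) = Y 0 * (Y 1 * (Y 0 - Y 1) * W 0 ^ 2) := by
        ring
      rw [h2]; exact J.1.mul_mem_left _ hq
    have h01 : W 0 * W 1 * (Y 0 * Y 1 * (Y 0 - Y 1)) ∈ J.1 := by
      have h2 : W 0 * W 1 * (Y 0 * Y 1 * (Y 0 - Y 1)) =
          Y 1 * (Y 0 - Y 1) * W 0 * b + Y 1 * (Y 1 * (Y 0 - Y 1) * W 0 ^ 2) := by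
        rw [hb_def]; ring
      rw [h2]
      exact J.1.add_mem (J.1.mul_mem_left _ hb) (J.1.mul_mem_left _ hq)
    have h11 : W 1 * W 1 * (Y 0 * Y 1 * (Y 0 - Y 1)) ∈ J.1 := by
      have h2 : W 1 * W 1 * (Y 0 * Y 1 * (Y 0 - Y 1)) =
          Y 1 * (Y 0 - Y 1) * W 1 * b + Y 1 * (Y 1 * (Y 0 - Y 1) * W 0 ^ 2) -
            Y 1 * (Y 0 - Y 1) * (Y 1 * W 0 * (W 0 - W 1)) := by
        rw [hb_def]; ring
      rw [h2]
      exact J.1.sub_mem (J.1.add_mem (J.1.mul_mem_left _ hb) (J.1.mul_mem_left _ hq))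
        (J.1.mul_mem_left _ he)
    have h2j : ∀ j, W 2 * W j * (Y 0 * Y 1 * (Y 0 - Y 1)) ∈ J.1 := by
      intro j
      have h2 : W 2 * W j * (Y 0 * Y 1 * (Y 0 - Y 1)) = W j * Y 0 * (Y 0 - Y 1) * a := by
        rw [ha_def]; ring
      rw [h2]; exact J.1.mul_mem_left _ ha
    have hf : Y 0 * Y 1 * (Y 0 - Y 1) ∈ J.1 := by
      refine mem_of_WW hsat fun i j => ?_
      fin_cases i <;> fin_cases j
      · exact h00
      · exact h01
      · have := h2j 0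
        rw [mul_comm (W 2) (W 0)] at this
        exact this
      · have := h01
        rw [mul_comm (W 0) (W 1)] at this
        exact this
      · exact h11
      · have := h2j 1
        rw [mul_comm (W 2) (W 1)] at this
        exact this
      · exact h2j 0
      · exact h2j 1
      · exact h2j 2
    have hdeg : Y 0 * Y 1 * (Y 0 - Y 1) ∈ piece w12 (3, 0) :=
      mul_mem_piece (mul_mem_piece (Y_mem 0) (Y_mem 1) (t := (2, 0)) (by simp))
        (Submodule.sub_mem _ (Y_mem 0) (Y_mem 1)) (by simp)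
    have hzero := eq_zero_of_mem_30 J hf hdeg
    have h5 := congrArg (eval (Sum.elim ![2, 1] ![0, 0, 0] : Fin 2 ⊕ Fin 3 → ℂ)) hzero
    simp at h5
    norm_num at h5

end Pool.Agent.BorderVSP
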