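import Mathlib

/-!
# Border varieties of sums of powers: definitions

A smooth projective toric variety `X` enters through its Cox ring
`S = ℂ[y_i : i ∈ σ]`, which is graded by `M = Pic X` through the degrees `w : σ → M` of the
variables, and through its irrelevant ideal `B ⊆ S`.  Closed points of `X` are the orbits of the
torus `Hom(M, ℂˣ)` on `ℂ^σ ∖ V(B)`.

The dual ring `T = ℂ[x_i : i ∈ σ]` is again `MvPolynomial σ ℂ`, with the same grading.
-/

set_option autoImplicit false

open MvPolynomial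

noncomputable section

namespace Pool.Agent.BorderVSP

/-- The graded piece `S_u` of the polynomial ring, for the grading with `deg y_i = w i`. -/
abbrev piece {σ M : Type} [AddCommGroup M] (w : σ → M) (u : M) :
    Submodule ℂ (MvPolynomial σ ℂ) :=
  weightedHomogeneousSubmodule ℂ w u

/-- An ideal is homogeneous if it contains all homogeneous components of its elements. -/
def IsHomogIdeal {σ M : Type} [AddCommGroup M] (w : σ → M)
    (I : Ideal (MvPolynomial σ ℂ)) : Prop :=
  ∀ f ∈ I, ∀ u : M, weightedHomogeneousComponent w u f ∈ I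

/-- The graded piece `(S/I)_u`: the image of `S_u` in `S/I`. -/
def quotPiece {σ M : Type} [AddCommGroup M] (w : σ → M)
    (I : Ideal (MvPolynomial σ ℂ)) (u : M) : Submodule ℂ (MvPolynomial σ ℂ ⧸ I) :=
  (piece w u).map (Ideal.Quotient.mkₐ ℂ I).toLinearMap

/-- The Hilbert function `u ↦ dim (S/I)_u`. -/
def hilbertFn {σ M : Type} [AddCommGroup M] (w : σ → M)
    (I : Ideal (MvPolynomial σ ℂ)) (u : M) : ℕ :=
  Module.finrank ℂ (quotPiece w I u)

/-- The generic Hilbert function `h_{r,X}(u) = min (r, dim S_u)` of `r` points. -/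
def genericHF {σ M : Type} [AddCommGroup M] (w : σ → M) (r : ℕ) (u : M) : ℕ :=
  min r (Module.finrank ℂ (piece w u))

/-- `I` is saturated with respect to the irrelevant ideal `B`, i.e. `I = (I : B^∞)`: whenever
some power of `B` multiplies `f` into `I`, already `f ∈ I`. -/
def IsSaturated {σ : Type} (B I : Ideal (MvPolynomial σ ℂ)) : Prop :=
  ∀ f : MvPolynomial σ ℂ, (∃ k : ℕ, ∀ b ∈ B ^ k, b * f ∈ I) → f ∈ I

/-- The (closed points of the) multigraded Hilbert scheme `Hilb^h_S` of Haiman and Sturmfels: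
all homogeneous ideals `I ⊆ S` with `dim (S/I)_u = h u` for all `u`. -/
def MultiHilb {σ M : Type} [AddCommGroup M] (w : σ → M) (h : M → ℕ) : Type :=
  {I : Ideal (MvPolynomial σ ℂ) // IsHomogIdeal w I ∧ ∀ u : M, hilbertFn w I u = h u}

/-- The dimension `dim S_u - h u` of the piece `I_u` of an ideal with Hilbert function `h`. -/
def frameSize {σ M : Type} [AddCommGroup M] (w : σ → M) (h : M → ℕ) (u : M) : ℕ :=
  Module.finrank ℂ (piece w u) - h u

/-- A frame of a point `I` of the multigraded Hilbert scheme: a basis `b u` of the vector space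
`I_u = I ∩ S_u`, for every degree `u`. -/
def IsFrame {σ M : Type} [AddCommGroup M] (w : σ → M) {h : M → ℕ} (I : MultiHilb w h)
    (b : (u : M) → Fin (frameSize w h u) → MvPolynomial σ ℂ) : Prop :=
  ∀ u : M, LinearIndependent ℂ (b u) ∧
    Submodule.span ℂ (Set.range (b u)) = I.1.restrictScalars ℂ ⊓ piece w u

/-- The coordinates on the space of frames: the coefficient at the monomial `n` of the `i`-th
member of the basis in degree `u`. -/
abbrev FrameVar {σ M : Type} [AddCommGroup M] (w : σ → M) (h : M → ℕ) : Type :=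
  Σ u : M, Fin (frameSize w h u) × (σ →₀ ℕ)

/-- The value of a polynomial in the frame coordinates at a frame. -/
def evalFrame {σ M : Type} [AddCommGroup M] (w : σ → M) (h : M → ℕ)
    (b : (u : M) → Fin (frameSize w h u) → MvPolynomial σ ℂ)
    (P : MvPolynomial (FrameVar w h) ℂ) : ℂ :=
  eval (fun x : FrameVar w h => coeff x.2.2 (b x.1 x.2.1)) P

/-- A set of points of the multigraded Hilbert scheme is Zariski closed if its members are cut
out by polynomial equations in the coordinates of frames, i.e. if its preimage is Zariski closed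
in the space of all frames of members of the multigraded Hilbert scheme.  Every polynomial
involves the frames in finitely many degrees only, so this is the topology induced from the
Zariski topologies of the finite products of Grassmannians `Gr(I_u ⊆ S_u)`. -/
def IsZariskiClosed {σ M : Type} [AddCommGroup M] (w : σ → M) (h : M → ℕ)
    (A : Set (MultiHilb w h)) : Prop :=
  ∃ P : Set (MvPolynomial (FrameVar w h) ℂ), ∀ (I : MultiHilb w h)
    (b : (u : M) → Fin (frameSize w h u) → MvPolynomial σ ℂ), IsFrame w I b →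
      (I ∈ A ↔ ∀ p ∈ P, evalFrame w h b p = 0)

lemma isZariskiClosed_empty {σ M : Type} [AddCommGroup M] (w : σ → M) (h : M → ℕ) :
    IsZariskiClosed w h ∅ :=
  ⟨{1}, fun I b _ => by simp [evalFrame]⟩

lemma isZariskiClosed_sInter {σ M : Type} [AddCommGroup M] (w : σ → M) (h : M → ℕ)
    (T : Set (Set (MultiHilb w h))) (hT : ∀ A ∈ T, IsZariskiClosed w h A) :
    IsZariskiClosed w h (⋂₀ T) := by
  unfold IsZariskiClosed at hT
  choose! P hP using hT
  refine ⟨{p | ∃ A, ∃ _ : A ∈ T, p ∈ P A}, fun I b hb => ?_⟩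
  constructor
  · rintro hI p ⟨A, hA, hp⟩
    exact ((hP A hA I b hb).1 (hI A hA)) p hp
  · intro H A hA
    exact (hP A hA I b hb).2 fun p hp => H p ⟨A, hA, hp⟩

lemma isZariskiClosed_union {σ M : Type} [AddCommGroup M] (w : σ → M) (h : M → ℕ)
    (A A' : Set (MultiHilb w h)) (hA : IsZariskiClosed w h A) (hA' : IsZariskiClosed w h A') :
    IsZariskiClosed w h (A ∪ A') := by
  obtain ⟨P, hP⟩ := hA
  obtain ⟨P', hP'⟩ := hA'
  refine ⟨{p | ∃ q ∈ P, ∃ q' ∈ P', p = q * q'}, fun I b hb => ?_⟩
  constructor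
  · rintro (hI | hI) p ⟨q, hq, q', hq', rfl⟩
    · simp [evalFrame, map_mul, show eval _ q = 0 from (hP I b hb).1 hI q hq]
    · simp [evalFrame, map_mul, show eval _ q' = 0 from (hP' I b hb).1 hI q' hq']
  · intro H
    by_contra hcon
    rw [Set.mem_union, not_or] at hcon
    obtain ⟨h1, h2⟩ := hcon
    rw [hP I b hb] at h1
    rw [hP' I b hb] at h2
    push Not at h1 h2
    obtain ⟨q, hq, hq0⟩ := h1
    obtain ⟨q', hq', hq0'⟩ := h2
    have := H (q * q') ⟨q, hq, q', hq', rfl⟩
    rw [evalFrame, map_mul] at this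
    exact (mul_ne_zero hq0 hq0') this

/-- The Zariski topology on the multigraded Hilbert scheme. -/
instance zariskiTopology {σ M : Type} [AddCommGroup M] (w : σ → M) (h : M → ℕ) :
    TopologicalSpace (MultiHilb w h) :=
  TopologicalSpace.ofClosed {A | IsZariskiClosed w h A} (isZariskiClosed_empty w h)
    (isZariskiClosed_sInter w h) (fun A hA A' hA' => isZariskiClosed_union w h A A' hA hA')

/-- Two vectors in `ℂ^σ` represent the same point of `X` if they lie in one orbit of the torus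
`Hom(M, ℂˣ)`, which acts through `(t · x)_i = t(w i) x_i`. -/
def SamePoint {σ M : Type} [AddCommGroup M] (w : σ → M) (x x' : σ → ℂ) : Prop :=
  ∃ t : Multiplicative M →* ℂˣ, ∀ i : σ, x' i = (t (Multiplicative.ofAdd (w i)) : ℂ) * x i

/-- `x ∈ ℂ^σ ∖ V(B)`, i.e. `x` represents a point of `X`. -/
def IsPoint {σ : Type} (B : Ideal (MvPolynomial σ ℂ)) (x : σ → ℂ) : Prop :=
  ∃ b ∈ B, eval x b ≠ 0

/-- `Z` represents `r` distinct points of `X`. -/
def AreDistinctPoints {σ M : Type} [AddCommGroup M] (w : σ → M)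
    (B : Ideal (MvPolynomial σ ℂ)) {r : ℕ} (Z : Fin r → σ → ℂ) : Prop :=
  (∀ i, IsPoint B (Z i)) ∧ ∀ i j, i ≠ j → ¬ SamePoint w (Z i) (Z j)

/-- The (saturated) homogeneous ideal of a set of points of `X`: it is generated by the
homogeneous polynomials which vanish at the points. -/
def idealOfPoints {σ M : Type} [AddCommGroup M] (w : σ → M) {r : ℕ}
    (Z : Fin r → σ → ℂ) : Ideal (MvPolynomial σ ℂ) :=
  Ideal.span {f | (∃ u : M, f ∈ piece w u) ∧ ∀ i, eval (Z i) f = 0}

/-- `Slip_{r,X}`: the closure, in the multigraded Hilbert scheme for the Hilbert function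
`h_{r,X}`, of the locus of ideals of `r` distinct points of `X`. -/
def Slip {σ M : Type} [AddCommGroup M] (w : σ → M) (B : Ideal (MvPolynomial σ ℂ)) (r : ℕ) :
    Set (MultiHilb w (genericHF w r)) :=
  closure {I | ∃ Z : Fin r → σ → ℂ, AreDistinctPoints w B Z ∧ I.1 = idealOfPoints w Z}

/-- The apolarity action `g · F` of `S` on `T`, where `y_i` acts as `∂/∂x_i`; on monomials,
`y^m · x^n = (∏ i, n_i (n_i - 1) ⋯ (n_i - m_i + 1)) x^(n - m)`. -/
def apolar {σ : Type} [Fintype σ] (g F : MvPolynomial σ ℂ) : MvPolynomial σ ℂ :=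
  ∑ m ∈ g.support, ∑ n ∈ F.support,
    monomial (n - m) (coeff m g * coeff n F * ∏ i : σ, ((n i).descFactorial (m i) : ℂ))

/-- The border variety of sums of powers `VSP(F, r)`: all `J` in `Slip_{r,X}` with
`J ⊆ Ann(F)`. -/
def borderVSP {σ M : Type} [Fintype σ] [AddCommGroup M] (w : σ → M)
    (B : Ideal (MvPolynomial σ ℂ)) (F : MvPolynomial σ ℂ) (r : ℕ) :
    Set (MultiHilb w (genericHF w r)) :=
  {J | J ∈ Slip w B r ∧ ∀ g ∈ J.1, apolar g F = 0}

/-- The affine cone over the image of `X` in `ℙ(T_v)`: the forms `L ∈ T_v` which, as functionals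
on `S_v`, are multiples of the evaluation at some point `x` of `X`. -/
def coneOver {σ M : Type} [Fintype σ] [AddCommGroup M] (w : σ → M)
    (B : Ideal (MvPolynomial σ ℂ)) (v : M) : Set (MvPolynomial σ ℂ) :=
  {L | L ∈ piece w v ∧ ∃ x : σ → ℂ, IsPoint B x ∧ ∃ c : ℂ,
    ∀ g ∈ piece w v, apolar g L = C (c * eval x g)}

/-- The affine cone over the `r`-th secant variety `σ_r(X) ⊆ ℙ(T_v)`: the Zariski closure, in
the vector space `T_v`, of the set of sums of `r` elements of the cone over `X`. -/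
def secantCone {σ M : Type} [Fintype σ] [AddCommGroup M] (w : σ → M)
    (B : Ideal (MvPolynomial σ ℂ)) (v : M) (r : ℕ) : Set (MvPolynomial σ ℂ) :=
  {F | F ∈ piece w v ∧ ∀ P : MvPolynomial (σ →₀ ℕ) ℂ,
    (∀ L : Fin r → MvPolynomial σ ℂ, (∀ i, L i ∈ coneOver w B v) →
      eval (fun n => coeff n (∑ i, L i)) P = 0) → eval (fun n => coeff n F) P = 0}

/-- `r` is the border rank of `F ∈ T_v` with respect to `X ⊆ ℙ(T_v)`. -/
def IsBorderRank {σ M : Type} [Fintype σ] [AddCommGroup M] (w : σ → M)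
    (B : Ideal (MvPolynomial σ ℂ)) (v : M) (F : MvPolynomial σ ℂ) (r : ℕ) : Prop :=
  IsLeast {s : ℕ | F ∈ secantCone w B v s} r

/-- A property `P` holds at the general point of a subset `Y` of a topological space (used for
irreducible `Y`): it holds on a nonempty relatively open subset of `Y`. -/
def HoldsGenerically {X : Type} [TopologicalSpace X] (Y : Set X) (P : X → Prop) : Prop :=
  ∃ U : Set X, IsOpen U ∧ (U ∩ Y).Nonempty ∧ ∀ x ∈ U ∩ Y, P x

/-- The degrees of the variables of the Cox ring `ℂ[y_0, …, y_m, z_0, …, z_n]` of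
`ℙ^m × ℙ^n`, graded by `Pic = ℤ²`. -/
def prodDegree (m n : ℕ) : Fin (m + 1) ⊕ Fin (n + 1) → ℤ × ℤ :=
  Sum.elim (fun _ => (1, 0)) (fun _ => (0, 1))

/-- The irrelevant ideal `(y_0, …, y_m) ∩ (z_0, …, z_n)` of `ℙ^m × ℙ^n`. -/
def prodIrrelevant (m n : ℕ) : Ideal (MvPolynomial (Fin (m + 1) ⊕ Fin (n + 1)) ℂ) :=
  Ideal.span (Set.range fun i : Fin (m + 1) => X (Sum.inl i)) ⊓
    Ideal.span (Set.range fun j : Fin (n + 1) => X (Sum.inr j))

/-- `VSP(F, r)` has an irreducible component (for the Zariski topology) whose general point is a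
saturated ideal. -/
def HasSaturatedComponent {σ M : Type} [Fintype σ] [AddCommGroup M] (w : σ → M)
    (B : Ideal (MvPolynomial σ ℂ)) (F : MvPolynomial σ ℂ) (r : ℕ) : Prop :=
  ∃ Y ∈ irreducibleComponents (borderVSP w B F r),
    HoldsGenerically Y fun J => IsSaturated B J.1.1

/-- `VSP(F, r)` has an irreducible component (for the Zariski topology) whose general point is a
nonsaturated ideal. -/
def HasNonsaturatedComponent {σ M : Type} [Fintype σ] [AddCommGroup M] (w : σ → M)
    (B : Ideal (MvPolynomial σ ℂ)) (F : MvPolynomial σ ℂ) (r : ℕ) : Prop :=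
  ∃ Y ∈ irreducibleComponents (borderVSP w B F r),
    HoldsGenerically Y fun J => ¬ IsSaturated B J.1.1

/-- The variables `x_0, x_1` of the dual ring of `ℙ^1 × ℙ^2`. -/
def xVar (i : Fin 2) : MvPolynomial (Fin 2 ⊕ Fin 3) ℂ := X (Sum.inl i)

/-- The variables `z_0, z_1, z_2` of the dual ring of `ℙ^1 × ℙ^2`. -/
def zVar (j : Fin 3) : MvPolynomial (Fin 2 ⊕ Fin 3) ℂ := X (Sum.inr j)

/-- `l² m²`. -/
def sqMulSq (l m : MvPolynomial (Fin 2 ⊕ Fin 3) ℂ) : MvPolynomial (Fin 2 ⊕ Fin 3) ℂ :=
  l ^ 2 * m ^ 2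

/-- The example: `F = x₀² z₀² + x₀² z₂² + x₁² z₁² + (x₀ + x₁)² (z₀ + z₁)²`, a form of bidegree
`(2, 2)` in the variables `x₀, x₁` and `z₀, z₁, z₂`. -/
def exampleForm : MvPolynomial (Fin 2 ⊕ Fin 3) ℂ :=
  sqMulSq (xVar 0) (zVar 0) + sqMulSq (xVar 0) (zVar 2) + sqMulSq (xVar 1) (zVar 1) +
    sqMulSq (xVar 0 + xVar 1) (zVar 0 + zVar 1)

end Pool.Agent.BorderVSP
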