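import Pool.Agent.helper92.VSP.Good

/-!
# The form and its decompositions
-/

set_option autoImplicit false

open MvPolynomial

noncomputable section

namespace Pool.Agent.BorderVSP

/-- The linear form in the first set of variables dual to a point. -/
def linY (x : Fin 2 ⊕ Fin 3 → ℂ) : S12 := ∑ i : Fin 2, C (x (Sum.inl i)) * X (Sum.inl i)

/-- The linear form in the second set of variables dual to a point. -/
def linW (x : Fin 2 ⊕ Fin 3 → ℂ) : S12 := ∑ j : Fin 3, C (x (Sum.inr j)) * X (Sum.inr j)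

lemma pderiv_inl_linY (x : Fin 2 ⊕ Fin 3 → ℂ) (i : Fin 2) :
    pderiv (Sum.inl i) (linY x) = C (x (Sum.inl i)) := by
  classical
  rw [linY, map_sum, Finset.sum_eq_single i]
  · rw [pderiv_C_mul, pderiv_X_self, mul_one]
  · intro j _ hj
    rw [pderiv_C_mul, pderiv_X_of_ne (fun h => hj (Sum.inl_injective h)), mul_zero]
  · intro h; exact absurd (Finset.mem_univ _) h

lemma pderiv_inl_linW (x : Fin 2 ⊕ Fin 3 → ℂ) (i : Fin 2) :
    pderiv (Sum.inl i) (linW x) = 0 := by
  rw [linW, map_sum]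
  refine Finset.sum_eq_zero fun j _ => ?_
  rw [pderiv_C_mul, pderiv_X_of_ne (by simp), mul_zero]

lemma pderiv_inr_linW (x : Fin 2 ⊕ Fin 3 → ℂ) (i : Fin 3) :
    pderiv (Sum.inr i) (linW x) = C (x (Sum.inr i)) := by
  classical
  rw [linW, map_sum, Finset.sum_eq_single i]
  · rw [pderiv_C_mul, pderiv_X_self, mul_one]
  · intro j _ hj
    rw [pderiv_C_mul, pderiv_X_of_ne (fun h => hj (Sum.inr_injective h)), mul_zero]
  · intro h; exact absurd (Finset.mem_univ _) h

lemma pderiv_inr_linY (x : Fin 2 ⊕ Fin 3 → ℂ) (i : Fin 3) :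
    pderiv (Sum.inr i) (linY x) = 0 := by
  rw [linY, map_sum]
  refine Finset.sum_eq_zero fun j _ => ?_
  rw [pderiv_C_mul, pderiv_X_of_ne (by simp), mul_zero]

lemma linY_mem (x : Fin 2 ⊕ Fin 3 → ℂ) : linY x ∈ piece w12 (1, 0) :=
  Submodule.sum_mem _ fun i _ => IsWeightedHomogeneous.C_mul (Y_mem i) _

lemma linW_mem (x : Fin 2 ⊕ Fin 3 → ℂ) : linW x ∈ piece w12 (0, 1) :=
  Submodule.sum_mem _ fun i _ => IsWeightedHomogeneous.C_mul (W_mem i) _

/-- The form `l^a l'^b` represents a multiple of the evaluation at `x`. -/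
lemma apolar_linY_pow_mul (x : Fin 2 ⊕ Fin 3 → ℂ) (a b : ℕ) :
    ∀ g ∈ piece w12 ((a : ℤ), (b : ℤ)), apolar g (linY x ^ a * linW x ^ b) =
      C ((a.factorial * b.factorial : ℂ) * eval x g) := by
  induction b with
  | zero =>
    induction a with
    | zero =>
      intro g hg
      have h := eq_C_of_mem_piece_zero (m := 1) (n := 2) (by simpa using hg)
      rw [h, apolar_C]
      simp
    | succ a ih =>
      intro g hg
      obtain ⟨q, hq, rfl⟩ := exists_sum_inl (m := 1) (n := 2) (u := ((a : ℤ), 0)) (by simp)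
        (by
          have h : ((1, 0) : ℤ × ℤ) + ((a : ℤ), 0) = (((a + 1 : ℕ) : ℤ), ((0 : ℕ) : ℤ)) := by
            exact Prod.ext (by simp [add_comm]) (by simp)
          rw [h]; exact hg)
      rw [apolar_sum_left, map_sum, Finset.mul_sum, map_sum]
      refine Finset.sum_congr rfl fun i _ => ?_
      rw [mul_comm (X (Sum.inl i)) (q i), apolar_mul, apolar_X]
      have h1 : pderiv (Sum.inl i) (linY x ^ (a + 1) * linW x ^ 0) =
          C ((a + 1 : ℂ) * x (Sum.inl i)) * (linY x ^ a * linW x ^ 0) := by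
        rw [pow_zero, mul_one, mul_one, pderiv_pow, pderiv_inl_linY]
        simp only [add_tsub_cancel_right, map_mul, map_add, map_natCast, map_one, Nat.cast_add,
          Nat.cast_one]
        ring
      rw [h1, apolar_C_mul_right, ih (q i) (by simpa using hq i), ← C_mul]
      congr 1
      rw [map_mul, eval_X, Nat.factorial_succ]
      push_cast
      ring
  | succ b ih =>
    intro g hg
    obtain ⟨q, hq, rfl⟩ := exists_sum_inr (m := 1) (n := 2) (u := ((a : ℤ), (b : ℤ))) (by simp)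
      (by
        have h : ((0, 1) : ℤ × ℤ) + ((a : ℤ), (b : ℤ)) = ((a : ℤ), ((b + 1 : ℕ) : ℤ)) := by
          exact Prod.ext (by simp) (by simp [add_comm])
        rw [h]; exact hg)
    rw [apolar_sum_left, map_sum, Finset.mul_sum, map_sum]
    refine Finset.sum_congr rfl fun i _ => ?_
    rw [mul_comm (X (Sum.inr i)) (q i), apolar_mul, apolar_X]
    have h1 : pderiv (Sum.inr i) (linY x ^ a * linW x ^ (b + 1)) =
        C ((b + 1 : ℂ) * x (Sum.inr i)) * (linY x ^ a * linW x ^ b) := by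
      rw [pderiv_mul, pderiv_pow, pderiv_pow, pderiv_inr_linW, pderiv_inr_linY]
      simp only [add_tsub_cancel_right, map_mul, map_add, map_natCast, map_one, Nat.cast_add,
        Nat.cast_one, mul_zero, zero_mul, zero_add]
      ring
    rw [h1, apolar_C_mul_right, ih (q i) (hq i), ← C_mul]
    congr 1
    rw [map_mul, eval_X, Nat.factorial_succ]
    push_cast
    ring

/-- The element of the cone over `X` given by the point `x` and a scalar. -/
def coneForm (c : ℂ) (x : Fin 2 ⊕ Fin 3 → ℂ) : S12 := C c * (linY x ^ 2 * linW x ^ 2)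

lemma coneForm_mem (c : ℂ) (x : Fin 2 ⊕ Fin 3 → ℂ) : coneForm c x ∈ piece w12 (2, 2) := by
  refine IsWeightedHomogeneous.C_mul ?_ _
  have h1 : linY x ^ 2 ∈ piece w12 (2, 0) := by
    have := IsWeightedHomogeneous.pow (linY_mem x) 2
    simpa using this
  have h2 : linW x ^ 2 ∈ piece w12 (0, 2) := by
    have := IsWeightedHomogeneous.pow (linW_mem x) 2
    simpa using this
  exact mul_mem_piece h1 h2 (by simp)

lemma apolar_coneForm (c : ℂ) (x : Fin 2 ⊕ Fin 3 → ℂ) :
    ∀ g ∈ piece w12 (2, 2), apolar g (coneForm c x) = C ((4 * c) * eval x g) := by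
  intro g hg
  rw [coneForm, apolar_C_mul_right, apolar_linY_pow_mul x 2 2 g (by simpa using hg), ← C_mul]
  congr 1
  norm_num [Nat.factorial]
  ring

/-- The first decomposition: three points on the diagonal and one further point. -/
def satPts : Fin 4 → Fin 2 ⊕ Fin 3 → ℂ :=
  ![Sum.elim ![1, -1] ![1, -1, 0], Sum.elim ![2, 1] ![2, 1, 0], Sum.elim ![1, 2] ![1, 2, 0],
    Sum.elim ![1, 0] ![0, 0, 1]]

/-- A one-parameter family of points, whose member at `0` gives the second decomposition. -/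
def famPts : Fin 4 → Fin 2 ⊕ Fin 3 → Polynomial ℂ :=
  ![Sum.elim ![0, 1] ![0, 1, 0], Sum.elim ![1, 1] ![1, 1, 0],
    Sum.elim ![1, Polynomial.X] ![1, 0, 1], Sum.elim ![1, 0] ![1, 0, -1]]

/-- The members of the family. -/
def famAt (t : ℂ) : Fin 4 → Fin 2 ⊕ Fin 3 → ℂ :=
  ![Sum.elim ![0, 1] ![0, 1, 0], Sum.elim ![1, 1] ![1, 1, 0],
    Sum.elim ![1, t] ![1, 0, 1], Sum.elim ![1, 0] ![1, 0, -1]]

lemma pointsAt_famPts (t : ℂ) : pointsAt famPts t = famAt t := by
  funext i s
  fin_cases i <;> rcases s with s | s <;> fin_cases s <;> simp [pointsAt, famPts, famAt]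

lemma exampleForm_expand : exampleForm =
    X (Sum.inl 0) ^ 2 * (X (Sum.inr 0) ^ 2 + X (Sum.inr 2) ^ 2) +
    X (Sum.inl 1) ^ 2 * X (Sum.inr 1) ^ 2 +
    (X (Sum.inl 0) + X (Sum.inl 1)) ^ 2 * (X (Sum.inr 0) + X (Sum.inr 1)) ^ 2 := by
  simp only [exampleForm, sqMulSq, xVar, zVar]
  ring

lemma exampleForm_eq_sat : exampleForm = ∑ i, coneForm (![1/9, 1/9, 1/9, 1] i) (satPts i) := by
  have h9 : (C (1/9) : S12) * 9 = 1 := by
    rw [← map_ofNat (C : ℂ →+* S12) 9, ← C_mul]; norm_num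
  have hC2 : (C (2 : ℂ) : S12) = 2 := map_ofNat C 2
  simp only [Fin.sum_univ_four, coneForm, linY, linW, satPts, Fin.sum_univ_two, Fin.sum_univ_three,
    exampleForm_expand, Sum.elim_inl, Sum.elim_inr, Matrix.cons_val_zero, Matrix.cons_val_one,
    Matrix.cons_val, Matrix.cons_val_fin_one, map_neg, map_one, map_zero, hC2]
  linear_combination (-(Y 0 ^ 2 * W 0 ^ 2 + Y 1 ^ 2 * W 1 ^ 2 +
    (Y 0 + Y 1) ^ 2 * (W 0 + W 1) ^ 2)) * h9

lemma exampleForm_eq_fam : exampleForm = ∑ i, coneForm (![1, 1, 1/2, 1/2] i) (famAt 0 i) := by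
  have h2 : (C (1/2) : S12) * 2 = 1 := by
    rw [← map_ofNat (C : ℂ →+* S12) 2, ← C_mul]; norm_num
  simp only [Fin.sum_univ_four, coneForm, linY, linW, famAt, Fin.sum_univ_two, Fin.sum_univ_three,
    exampleForm_expand, Sum.elim_inl, Sum.elim_inr, Matrix.cons_val_zero, Matrix.cons_val_one,
    Matrix.cons_val, Matrix.cons_val_fin_one, map_neg, map_one, map_zero]
  linear_combination (-(Y 0 ^ 2 * (W 0 ^ 2 + W 2 ^ 2))) * h2

end Pool.Agent.BorderVSP
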