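import Pool.Agent.helper92.VSP.Apolar

/-!
# Frames and open sets of the multigraded Hilbert scheme
-/

set_option autoImplicit false

open MvPolynomial

noncomputable section

namespace Pool.Agent.BorderVSP

variable {σ M : Type} [AddCommGroup M] (w : σ → M)

/-- The exponents of degree `u`. -/
abbrev Expo (u : M) : Type := {n : σ →₀ ℕ // Finsupp.weight w n = u}

/-- All graded pieces are finite dimensional. -/
def FiniteGrading : Prop := ∀ u : M, Finite (Expo w u)

/-- The coordinates (coefficients at monomials of degree `u`) of a polynomial. -/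
def coords (u : M) : MvPolynomial σ ℂ →ₗ[ℂ] (Expo w u → ℂ) :=
  LinearMap.pi fun d => lcoeff ℂ d.1

@[simp] lemma coords_apply (u : M) (f : MvPolynomial σ ℂ) (d : Expo w u) :
    coords w u f d = coeff d.1 f := rfl

lemma coords_injOn {u : M} {f : MvPolynomial σ ℂ} (hf : f ∈ piece w u)
    (h : coords w u f = 0) : f = 0 := by
  ext n
  rw [coeff_zero]
  by_contra hn
  exact hn (congrFun h ⟨n, hf hn⟩)

lemma disjoint_piece_ker (u : M) : Disjoint (piece w u) (LinearMap.ker (coords w u)) := by
  rw [Submodule.disjoint_def]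
  intro f hf hk
  exact coords_injOn w hf hk

/-- `S_u` has the monomials of degree `u` as a basis. -/
def pieceEquiv [hfin : ∀ u, Finite (Expo w u)] (u : M) : piece w u ≃ₗ[ℂ] (Expo w u → ℂ) :=
  LinearEquiv.ofBijective ((coords w u).domRestrict (piece w u)) (by
    classical
    constructor
    · rw [← LinearMap.ker_eq_bot]
      rw [LinearMap.ker_eq_bot']
      rintro ⟨f, hf⟩ h
      exact Subtype.ext (coords_injOn w hf h)
    · intro a
      have := Fintype.ofFinite (Expo w u)
      refine ⟨⟨∑ d : Expo w u, monomial d.1 (a d),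
        Submodule.sum_mem _ fun d _ => isWeightedHomogeneous_monomial w d.1 _ d.2⟩, ?_⟩
      funext d
      simp only [LinearMap.domRestrict_apply, coords_apply, coeff_sum, coeff_monomial]
      rw [Finset.sum_eq_single d]
      · simp
      · intro b _ hb
        rw [if_neg]
        intro h; exact hb (Subtype.ext h)
      · intro h; exact absurd (Finset.mem_univ _) h)

instance finite_piece [hfin : ∀ u, Finite (Expo w u)] (u : M) :
    Module.Finite ℂ (piece w u) :=
  Module.Finite.equiv (pieceEquiv w u).symm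

lemma finrank_piece [hfin : ∀ u, Finite (Expo w u)] (u : M) :
    Module.finrank ℂ (piece w u) = Nat.card (Expo w u) := by
  have := Fintype.ofFinite (Expo w u)
  rw [(pieceEquiv w u).finrank_eq, Module.finrank_fintype_fun_eq_card, Nat.card_eq_fintype_card]

/-- The piece `I_u` of an ideal. -/
abbrev idealPiece (I : Ideal (MvPolynomial σ ℂ)) (u : M) : Submodule ℂ (MvPolynomial σ ℂ) :=
  I.restrictScalars ℂ ⊓ piece w u

lemma mem_idealPiece {I : Ideal (MvPolynomial σ ℂ)} {u : M} {f : MvPolynomial σ ℂ} :
    f ∈ idealPiece w I u ↔ f ∈ I ∧ f ∈ piece w u := Iff.rfl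

instance finite_idealPiece [hfin : ∀ u, Finite (Expo w u)] (I : Ideal (MvPolynomial σ ℂ))
    (u : M) : Module.Finite ℂ (idealPiece w I u) :=
  Submodule.finiteDimensional_of_le (inf_le_right : idealPiece w I u ≤ piece w u)

instance finite_quotPiece [hfin : ∀ u, Finite (Expo w u)] (I : Ideal (MvPolynomial σ ℂ))
    (u : M) : Module.Finite ℂ (quotPiece w I u) := by
  unfold quotPiece; infer_instance

lemma finrank_idealPiece_add_hilbertFn [hfin : ∀ u, Finite (Expo w u)]
    (I : Ideal (MvPolynomial σ ℂ)) (u : M) :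
    hilbertFn w I u + Module.finrank ℂ (idealPiece w I u) = Module.finrank ℂ (piece w u) := by
  set q : MvPolynomial σ ℂ →ₗ[ℂ] (MvPolynomial σ ℂ ⧸ I) := (Ideal.Quotient.mkₐ ℂ I).toLinearMap
  have h := (q.domRestrict (piece w u)).finrank_range_add_finrank_ker
  rw [← h]
  congr 1
  · rw [LinearMap.range_domRestrict]; rfl
  · rw [LinearMap.ker_domRestrict]
    have hk : LinearMap.ker q = I.restrictScalars ℂ := by
      ext f
      rw [LinearMap.mem_ker]
      exact Ideal.Quotient.eq_zero_iff_mem
    rw [hk]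
    have e := Submodule.comapSubtypeEquivOfLe
      (inf_le_right : idealPiece w I u ≤ piece w u)
    rw [← e.finrank_eq]
    have hc : (Submodule.comap (piece w u).subtype (idealPiece w I u)) =
        Submodule.comap (piece w u).subtype (I.restrictScalars ℂ) := by
      ext ⟨f, hf⟩
      simp
    rw [hc]

lemma finrank_idealPiece_of_hilb [hfin : ∀ u, Finite (Expo w u)] {h : M → ℕ}
    (I : MultiHilb w h) (u : M) :
    Module.finrank ℂ (idealPiece w I.1 u) = frameSize w h u := by
  have := finrank_idealPiece_add_hilbertFn w I.1 u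
  rw [I.2.2 u] at this
  unfold frameSize
  omega

lemma frameSize_add [hfin : ∀ u, Finite (Expo w u)] {h : M → ℕ}
    (I : MultiHilb w h) (u : M) :
    h u + frameSize w h u = Module.finrank ℂ (piece w u) := by
  have := finrank_idealPiece_add_hilbertFn w I.1 u
  rw [I.2.2 u, finrank_idealPiece_of_hilb w I u] at this
  exact this

/-- Every point of the multigraded Hilbert scheme has a frame. -/
lemma exists_isFrame [hfin : ∀ u, Finite (Expo w u)] {h : M → ℕ} (I : MultiHilb w h) :
    ∃ b : (u : M) → Fin (frameSize w h u) → MvPolynomial σ ℂ, IsFrame w I b := by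
  have key : ∀ u : M, ∃ c : Fin (frameSize w h u) → MvPolynomial σ ℂ,
      LinearIndependent ℂ c ∧ Submodule.span ℂ (Set.range c) = idealPiece w I.1 u := by
    intro u
    let B := Module.finBasisOfFinrankEq ℂ (idealPiece w I.1 u)
      (finrank_idealPiece_of_hilb w I u)
    refine ⟨fun i => (B i : MvPolynomial σ ℂ), ?_, ?_⟩
    · exact B.linearIndependent.map' (idealPiece w I.1 u).subtype (Submodule.ker_subtype _)
    · have : Set.range (fun i => (B i : MvPolynomial σ ℂ)) =
          (idealPiece w I.1 u).subtype '' Set.range B := by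
        rw [← Set.range_comp]; rfl
      rw [this, Submodule.span_image, B.span_eq, Submodule.map_top, Submodule.range_subtype]
  choose b hb using key
  exact ⟨b, fun u => hb u⟩

/-- A frame in a single degree can be completed to a frame. -/
lemma exists_isFrame_extending [hfin : ∀ u, Finite (Expo w u)] {h : M → ℕ}
    (I : MultiHilb w h) (b : (u : M) → Fin (frameSize w h u) → MvPolynomial σ ℂ)
    (hb : ∀ u, LinearIndependent ℂ (b u) ∧ ∀ i, b u i ∈ idealPiece w I.1 u) :
    IsFrame w I b := by
  intro u
  refine ⟨(hb u).1, ?_⟩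
  have hle : Submodule.span ℂ (Set.range (b u)) ≤ idealPiece w I.1 u :=
    Submodule.span_le.2 (by rintro _ ⟨i, rfl⟩; exact (hb u).2 i)
  refine Submodule.eq_of_le_of_finrank_eq hle ?_
  rw [finrank_span_eq_card (hb u).1, Fintype.card_fin, finrank_idealPiece_of_hilb w I u]

lemma isOpen_iff_isZariskiClosed_compl {h : M → ℕ} (A : Set (MultiHilb w h)) :
    IsOpen A ↔ IsZariskiClosed w h Aᶜ := Iff.rfl

lemma isClosed_iff_isZariskiClosed {h : M → ℕ} (A : Set (MultiHilb w h)) :
    IsClosed A ↔ IsZariskiClosed w h A := by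
  rw [← isOpen_compl_iff, isOpen_iff_isZariskiClosed_compl, compl_compl]

/-- The set of all `J` whose piece `J_u` is complementary to the span of a given family `v`
of `h u` elements of `S_u`. -/
def complSet {h : M → ℕ} (u : M) {k : ℕ} (v : Fin k → MvPolynomial σ ℂ) :
    Set (MultiHilb w h) :=
  {J | LinearIndependent ℂ v ∧ Disjoint (Submodule.span ℂ (Set.range v)) (idealPiece w J.1 u)}

lemma mem_complSet_iff_sumElim {h : M → ℕ} {u : M} {k : ℕ} {v : Fin k → MvPolynomial σ ℂ}
    {J : MultiHilb w h} {b : (u : M) → Fin (frameSize w h u) → MvPolynomial σ ℂ}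
    (hb : IsFrame w J b) :
    J ∈ complSet w (h := h) u v ↔ LinearIndependent ℂ (Sum.elim v (b u)) := by
  rw [linearIndependent_sum]
  simp only [Sum.elim_comp_inl, Sum.elim_comp_inr]
  rw [(hb u).2]
  exact ⟨fun H => ⟨H.1, (hb u).1, H.2⟩, fun H => ⟨H.1, H.2.2⟩⟩

/-- Complementarity to a fixed subspace is an open condition. -/
lemma isOpen_complSet [hfin : ∀ u, Finite (Expo w u)] {h : M → ℕ} (u : M) {k : ℕ}
    (v : Fin k → MvPolynomial σ ℂ) (hv : ∀ i, v i ∈ piece w u)
    (hk : k + frameSize w h u = Module.finrank ℂ (piece w u)) :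
    IsOpen (complSet w (h := h) u v) := by
  classical
  have := Fintype.ofFinite (Expo w u)
  have hcard : Fintype.card (Fin k ⊕ Fin (frameSize w h u)) = Fintype.card (Expo w u) := by
    rw [Fintype.card_sum, Fintype.card_fin, Fintype.card_fin, hk, finrank_piece,
      Nat.card_eq_fintype_card]
  let e : Fin k ⊕ Fin (frameSize w h u) ≃ Expo w u := Fintype.equivOfCardEq hcard
  let A : Matrix (Expo w u) (Expo w u) (MvPolynomial (FrameVar w h) ℂ) := Matrix.of fun r d =>
    Sum.elim (fun i => C (coeff d.1 (v i))) (fun j => X (⟨u, j, d.1⟩ : FrameVar w h)) (e.symm r)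
  rw [isOpen_iff_isZariskiClosed_compl]
  refine ⟨{A.det}, fun J b hb => ?_⟩
  have hdet : evalFrame w h b A.det =
      Matrix.det (Matrix.of fun r d : Expo w u => coeff d.1 (Sum.elim v (b u) (e.symm r))) := by
    rw [evalFrame, RingHom.map_det]
    congr 1
    ext r d
    rw [RingHom.mapMatrix_apply, Matrix.map_apply, Matrix.of_apply]
    have hA : A r d = Sum.elim (fun i => C (coeff d.1 (v i)))
        (fun j => X (⟨u, j, d.1⟩ : FrameVar w h)) (e.symm r) := rfl
    rw [hA]
    rcases e.symm r with i | j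
    · simp
    · simp
  have hmem : ∀ r, Sum.elim v (b u) (e.symm r) ∈ piece w u := by
    intro r
    rcases e.symm r with i | j
    · exact hv i
    · have : b u j ∈ Submodule.span ℂ (Set.range (b u)) := Submodule.subset_span ⟨j, rfl⟩
      rw [(hb u).2] at this
      exact this.2
  have hli : LinearIndependent ℂ (Sum.elim v (b u)) ↔
      Matrix.det (Matrix.of fun r d : Expo w u =>
        coeff d.1 (Sum.elim v (b u) (e.symm r))) ≠ 0 := by
    rw [← isUnit_iff_ne_zero, ← Matrix.isUnit_iff_isUnit_det,
      ← Matrix.linearIndependent_rows_iff_isUnit]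
    have h1 : LinearIndependent ℂ (Sum.elim v (b u)) ↔
        LinearIndependent ℂ (Sum.elim v (b u) ∘ e.symm) :=
      (linearIndependent_equiv e.symm).symm
    rw [h1]
    have h2 : Disjoint (Submodule.span ℂ (Set.range (Sum.elim v (b u) ∘ e.symm)))
        (LinearMap.ker (coords w u)) := by
      refine Disjoint.mono_left ?_ (disjoint_piece_ker w u)
      rw [Submodule.span_le]
      rintro _ ⟨r, rfl⟩
      exact hmem r
    rw [← (coords w u).linearIndependent_iff_of_disjoint h2]
    rfl
  rw [Set.mem_compl_iff, mem_complSet_iff_sumElim w hb, hli]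
  simp [hdet]

lemma isOpen_complSet' [hfin : ∀ u, Finite (Expo w u)] {h : M → ℕ} (J₀ : MultiHilb w h) (u : M)
    (v : Fin (h u) → MvPolynomial σ ℂ) (hv : ∀ i, v i ∈ piece w u) :
    IsOpen (complSet w (h := h) u v) :=
  isOpen_complSet w u v hv (frameSize_add w J₀ u)

/-- For `J` in `complSet`, the span of `v` surjects onto `(S/J)_u`. -/
lemma exists_sub_mem_of_mem_complSet [hfin : ∀ u, Finite (Expo w u)] {h : M → ℕ} {u : M}
    {k : ℕ} {v : Fin k → MvPolynomial σ ℂ} (hv : ∀ i, v i ∈ piece w u)
    (hk : k = h u) {J : MultiHilb w h} (hJ : J ∈ complSet w (h := h) u v)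
    {f : MvPolynomial σ ℂ} (hf : f ∈ piece w u) :
    ∃ g ∈ Submodule.span ℂ (Set.range v), f - g ∈ J.1 := by
  have hle : Submodule.span ℂ (Set.range v) ⊔ idealPiece w J.1 u ≤ piece w u := by
    refine sup_le (Submodule.span_le.2 ?_) inf_le_right
    rintro _ ⟨i, rfl⟩; exact hv i
  have hfd : FiniteDimensional ℂ (Submodule.span ℂ (Set.range v)) :=
    FiniteDimensional.span_of_finite ℂ (Set.finite_range v)
  have heq : Submodule.span ℂ (Set.range v) ⊔ idealPiece w J.1 u = piece w u := by
    refine Submodule.eq_of_le_of_finrank_eq hle ?_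
    have h1 := Submodule.finrank_sup_add_finrank_inf_eq (Submodule.span ℂ (Set.range v))
      (idealPiece w J.1 u)
    have h2 : Submodule.span ℂ (Set.range v) ⊓ idealPiece w J.1 u = ⊥ := hJ.2.eq_bot
    rw [h2, finrank_bot, add_zero, finrank_span_eq_card hJ.1, Fintype.card_fin,
      finrank_idealPiece_of_hilb w J u] at h1
    rw [h1, ← frameSize_add w J u, hk]
  rw [← heq] at hf
  obtain ⟨g, hg, p, hp, rfl⟩ := Submodule.mem_sup.1 hf
  exact ⟨g, hg, by rw [add_sub_cancel_left]; exact hp.1⟩

end Pool.Agent.BorderVSP
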