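import Pool.Agent.helper92.VSP.Prod

/-!
# Four points of `ℙ^1 × ℙ^2` with the generic Hilbert function
-/

set_option autoImplicit false

open MvPolynomial

noncomputable section

namespace Pool.Agent.BorderVSP

/-- The polynomial ring with bigrading for `ℙ^1 × ℙ^2`. -/
abbrev S12 : Type := MvPolynomial (Fin 2 ⊕ Fin 3) ℂ

/-- Grading of the Cox ring of `ℙ^1 × ℙ^2`. -/
abbrev w12 : Fin 2 ⊕ Fin 3 → ℤ × ℤ := prodDegree 1 2

/-- Irrelevant ideal of `ℙ^1 × ℙ^2`. -/
abbrev B12 : Ideal S12 := prodIrrelevant 1 2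

/-- The variables. -/
abbrev Y (i : Fin 2) : S12 := X (Sum.inl i)

/-- The variables. -/
abbrev W (j : Fin 3) : S12 := X (Sum.inr j)

lemma Y_mem (i : Fin 2) : Y i ∈ piece w12 (1, 0) := X_inl_mem (m := 1) (n := 2) i

lemma W_mem (j : Fin 3) : W j ∈ piece w12 (0, 1) := X_inr_mem (m := 1) (n := 2) j

lemma finrank_piece_30 : Module.finrank ℂ (piece w12 (3, 0)) = 4 := by
  rw [finrank_piece]
  have h := card_expo 1 2 3 0
  simp only [Nat.cast_ofNat, Nat.cast_zero] at h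
  rw [h]
  decide +kernel

lemma finrank_piece_11 : Module.finrank ℂ (piece w12 (1, 1)) = 6 := by
  rw [finrank_piece]
  have h := card_expo 1 2 1 1
  simp only [Nat.cast_one] at h
  rw [h]
  decide +kernel

lemma finrank_piece_02 : Module.finrank ℂ (piece w12 (0, 2)) = 6 := by
  rw [finrank_piece]
  have h := card_expo 1 2 0 2
  simp only [Nat.cast_ofNat, Nat.cast_zero] at h
  rw [h]
  decide +kernel

/-- A list of conditions which guarantee that four points have the generic Hilbert function. -/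
structure GoodPoints (Z : Fin 4 → Fin 2 ⊕ Fin 3 → ℂ) : Prop where
  det : ∀ i j, i ≠ j → Z i (Sum.inl 0) * Z j (Sum.inl 1) - Z i (Sum.inl 1) * Z j (Sum.inl 0) ≠ 0
  s02 : Function.Surjective (evMap w12 Z (0, 2))
  s11 : Function.Surjective (evMap w12 Z (1, 1))
  i01 : Function.Injective (evMap w12 Z (0, 1))
  l : ∃ l ∈ piece w12 (1, 0), ∀ i, eval (Z i) l ≠ 0
  l' : ∃ l ∈ piece w12 (0, 1), ∀ i, eval (Z i) l ≠ 0

lemma evMap_surjective_30 {Z : Fin 4 → Fin 2 ⊕ Fin 3 → ℂ}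
    (det : ∀ i j, i ≠ j → Z i (Sum.inl 0) * Z j (Sum.inl 1) - Z i (Sum.inl 1) * Z j (Sum.inl 0) ≠ 0) :
    Function.Surjective (evMap w12 Z (3, 0)) := by
  classical
  refine evMap_surjective_of_dual
    (fun i => ∏ j ∈ Finset.univ.erase i, (C (Z j (Sum.inl 1)) * Y 0 - C (Z j (Sum.inl 0)) * Y 1))
    (fun i => ?_) (fun i k hk => ?_) (fun i => ?_)
  · have h1 : ∀ j ∈ Finset.univ.erase i, IsWeightedHomogeneous w12
        (C (Z j (Sum.inl 1)) * Y 0 - C (Z j (Sum.inl 0)) * Y 1 : S12) ((1, 0) : ℤ × ℤ) := by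
      intro j _
      exact (IsWeightedHomogeneous.C_mul (Y_mem 0) _).sub (IsWeightedHomogeneous.C_mul (Y_mem 1) _)
    have h2 := IsWeightedHomogeneous.prod (Finset.univ.erase i) _ _ h1
    rw [Finset.sum_const, Finset.card_erase_of_mem (Finset.mem_univ _)] at h2
    simpa using h2
  · rw [map_prod]
    refine Finset.prod_eq_zero (i := k) (by simp [hk]) ?_
    simp only [map_sub, map_mul, eval_C, eval_X]
    ring
  · rw [map_prod, Finset.prod_ne_zero_iff]
    intro j hj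
    rw [Finset.mem_erase] at hj
    simp only [map_sub, map_mul, eval_C, eval_X]
    intro h
    refine det i j (Ne.symm hj.1) ?_
    linear_combination h

lemma evMap_injective_30 {Z : Fin 4 → Fin 2 ⊕ Fin 3 → ℂ}
    (det : ∀ i j, i ≠ j → Z i (Sum.inl 0) * Z j (Sum.inl 1) - Z i (Sum.inl 1) * Z j (Sum.inl 0) ≠ 0) :
    Function.Injective (evMap w12 Z (3, 0)) := by
  rw [LinearMap.injective_iff_surjective_of_finrank_eq_finrank]
  · exact evMap_surjective_30 det
  · rw [finrank_piece_30]; simp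

variable {Z : Fin 4 → Fin 2 ⊕ Fin 3 → ℂ}

lemma GoodPoints.hilb (h : GoodPoints Z) (u : ℤ × ℤ) :
    Function.Surjective (evMap w12 Z u) ∨ Function.Injective (evMap w12 Z u) := by
  obtain ⟨l, hl, hlZ⟩ := h.l
  obtain ⟨l', hl', hlZ'⟩ := h.l'
  obtain ⟨a, b⟩ := u
  -- surjectivity propagates
  have hpow : ∀ a b : ℕ, l ^ a * l' ^ b ∈ piece w12 ((a : ℤ), (b : ℤ)) := by
    intro a b
    have h1 : l ^ a ∈ piece w12 ((a : ℤ), 0) := by
      have := IsWeightedHomogeneous.pow hl a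
      simpa using this
    have h2 : l' ^ b ∈ piece w12 (0, (b : ℤ)) := by
      have := IsWeightedHomogeneous.pow hl' b
      simpa using this
    exact mul_mem_piece h1 h2 (by simp)
  have hpowZ : ∀ a b : ℕ, ∀ i, eval (Z i) (l ^ a * l' ^ b) ≠ 0 := by
    intro a b i
    rw [map_mul, map_pow, map_pow]
    exact mul_ne_zero (pow_ne_zero _ (hlZ i)) (pow_ne_zero _ (hlZ' i))
  have hl0 : ∀ a b : ℕ, l ^ a * l' ^ b ≠ 0 := by
    intro a b h0
    exact hpowZ a b 0 (by rw [h0, map_zero])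
  by_cases hneg : a < 0 ∨ b < 0
  · right
    rw [← LinearMap.ker_eq_bot, LinearMap.ker_eq_bot']
    intro f _
    exact Subtype.ext (eq_zero_of_neg (m := 1) (n := 2) hneg f.2)
  push Not at hneg
  obtain ⟨a, rfl⟩ := Int.eq_ofNat_of_zero_le hneg.1
  obtain ⟨b, rfl⟩ := Int.eq_ofNat_of_zero_le hneg.2
  by_cases h1 : 3 ≤ a
  · left
    refine evMap_surjective_mul (hpow (a - 3) b) (hpowZ _ _) ?_ (evMap_surjective_30 h.det)
    rw [Prod.mk_add_mk, Prod.mk.injEq]; omega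
  by_cases h2 : 2 ≤ b
  · left
    refine evMap_surjective_mul (hpow a (b - 2)) (hpowZ _ _) ?_ h.s02
    rw [Prod.mk_add_mk, Prod.mk.injEq]; omega
  by_cases h3 : 1 ≤ a ∧ 1 ≤ b
  · left
    refine evMap_surjective_mul (hpow (a - 1) (b - 1)) (hpowZ _ _) ?_ h.s11
    rw [Prod.mk_add_mk, Prod.mk.injEq]; omega
  right
  by_cases h4 : b = 0
  · subst h4
    refine evMap_injective_of_mul (hpow (3 - a) 0) (hl0 _ _) ?_ (evMap_injective_30 h.det)
    rw [Prod.mk_add_mk, Prod.mk.injEq]; omega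
  · obtain rfl : b = 1 := by omega
    obtain rfl : a = 0 := by omega
    exact h.i01

lemma mul_mem_B12 {l l' : S12} (hl : l ∈ piece w12 (1, 0)) (hl' : l' ∈ piece w12 (0, 1)) :
    l * l' ∈ B12 := by
  obtain ⟨a, rfl⟩ := exists_linear_inl (m := 1) (n := 2) hl
  obtain ⟨b, rfl⟩ := exists_linear_inr (m := 1) (n := 2) hl'
  refine ⟨Ideal.mul_mem_right _ _ ?_, Ideal.mul_mem_left _ _ ?_⟩
  · exact Ideal.sum_mem _ fun i _ => Ideal.mul_mem_left _ _ (Ideal.subset_span ⟨i, rfl⟩)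
  · exact Ideal.sum_mem _ fun i _ => Ideal.mul_mem_left _ _ (Ideal.subset_span ⟨i, rfl⟩)

lemma GoodPoints.exists_b (h : GoodPoints Z) :
    ∃ b ∈ B12, (∃ v, b ∈ piece w12 v) ∧ ∀ i, eval (Z i) b ≠ 0 := by
  obtain ⟨l, hl, hlZ⟩ := h.l
  obtain ⟨l', hl', hlZ'⟩ := h.l'
  refine ⟨l * l', mul_mem_B12 hl hl', ⟨(1, 1), mul_mem_piece hl hl' (by simp)⟩, fun i => ?_⟩
  rw [map_mul]
  exact mul_ne_zero (hlZ i) (hlZ' i)

lemma GoodPoints.distinct (h : GoodPoints Z) : AreDistinctPoints w12 B12 Z := by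
  refine ⟨fun i => ?_, fun i j hij => ?_⟩
  · obtain ⟨b, hb, -, hbi⟩ := h.exists_b
    exact ⟨b, hb, hbi i⟩
  · rintro ⟨t, ht⟩
    apply h.det i j hij
    rw [ht (Sum.inl 0), ht (Sum.inl 1)]
    simp only [prodDegree, Sum.elim_inl]
    ring

lemma GoodPoints.saturated (h : GoodPoints Z) : IsSaturated B12 (idealOfPoints w12 Z) := by
  obtain ⟨b, hb, hv, hbi⟩ := h.exists_b
  exact isSaturated_idealOfPoints fun i => ⟨b, hb, hv, hbi i⟩

/-- The point of the multigraded Hilbert scheme given by four good points. -/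
def GoodPoints.toHilb (h : GoodPoints Z) : MultiHilb w12 (genericHF w12 4) :=
  pointsHilb Z h.hilb

lemma GoodPoints.toHilb_mem_slip (h : GoodPoints Z) : h.toHilb ∈ Slip w12 B12 4 :=
  subset_closure ⟨Z, h.distinct, rfl⟩

end Pool.Agent.BorderVSP
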