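import Pool.Agent.helper92.VSP.Form

/-!
# The two configurations of points are good
-/

set_option autoImplicit false

open MvPolynomial

noncomputable section

namespace Pool.Agent.BorderVSP

lemma mem_piece_quadW (i j : Fin 3) : W i * W j ∈ piece w12 (0, 2) :=
  mul_mem_piece (W_mem i) (W_mem j) (by simp)

lemma mem_piece_YW (i : Fin 2) (j : Fin 3) : Y i * W j ∈ piece w12 (1, 1) :=
  mul_mem_piece (Y_mem i) (W_mem j) (by simp)

/-- Dual forms of degree `(0, 2)` for `satPts`. -/
def satDual02 : Fin 4 → S12 :=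
  ![(W 0 - 2 * W 1) * (2 * W 0 - W 1), (W 0 + W 1) * (2 * W 0 - W 1),
    (W 0 + W 1) * (W 0 - 2 * W 1), W 2 * W 2]

/-- Dual forms of degree `(1, 1)` for `satPts`. -/
def satDual11 : Fin 4 → S12 :=
  ![(Y 0 - 2 * Y 1) * (2 * W 0 - W 1), (Y 0 + Y 1) * (2 * W 0 - W 1),
    (Y 0 + Y 1) * (W 0 - 2 * W 1), Y 0 * W 2]

/-- Dual forms of degree `(0, 2)` for `famAt t`. -/
def famDual02 : Fin 4 → S12 :=
  ![W 1 * (W 0 - W 1), W 1 * W 0, W 2 * (W 0 + W 2), W 2 * (W 0 - W 2)]

/-- Dual forms of degree `(1, 1)` for `famAt t`. -/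
def famDual11 : Fin 4 → S12 :=
  ![(Y 1 - Y 0) * W 1, Y 0 * W 1, Y 0 * (W 0 - W 1 + W 2), Y 0 * (W 0 - W 1 - W 2)]

lemma two_mul_mem {u : ℤ × ℤ} {f : S12} (hf : f ∈ piece w12 u) : 2 * f ∈ piece w12 u := by
  have h : (2 : S12) * f = f + f := by ring
  rw [h]; exact Submodule.add_mem _ hf hf

lemma satDual02_mem (i : Fin 4) : satDual02 i ∈ piece w12 (0, 2) := by
  have hs : ((0, 1) : ℤ × ℤ) + (0, 1) = (0, 2) := by simp
  fin_cases i
  · exact mul_mem_piece (Submodule.sub_mem _ (W_mem 0) (two_mul_mem (W_mem 1)))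
      (Submodule.sub_mem _ (two_mul_mem (W_mem 0)) (W_mem 1)) hs
  · exact mul_mem_piece (Submodule.add_mem _ (W_mem 0) (W_mem 1))
      (Submodule.sub_mem _ (two_mul_mem (W_mem 0)) (W_mem 1)) hs
  · exact mul_mem_piece (Submodule.add_mem _ (W_mem 0) (W_mem 1))
      (Submodule.sub_mem _ (W_mem 0) (two_mul_mem (W_mem 1))) hs
  · exact mul_mem_piece (W_mem 2) (W_mem 2) hs

lemma satDual11_mem (i : Fin 4) : satDual11 i ∈ piece w12 (1, 1) := by
  have hs : ((1, 0) : ℤ × ℤ) + (0, 1) = (1, 1) := by simp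
  fin_cases i
  · exact mul_mem_piece (Submodule.sub_mem _ (Y_mem 0) (two_mul_mem (Y_mem 1)))
      (Submodule.sub_mem _ (two_mul_mem (W_mem 0)) (W_mem 1)) hs
  · exact mul_mem_piece (Submodule.add_mem _ (Y_mem 0) (Y_mem 1))
      (Submodule.sub_mem _ (two_mul_mem (W_mem 0)) (W_mem 1)) hs
  · exact mul_mem_piece (Submodule.add_mem _ (Y_mem 0) (Y_mem 1))
      (Submodule.sub_mem _ (W_mem 0) (two_mul_mem (W_mem 1))) hs
  · exact mul_mem_piece (Y_mem 0) (W_mem 2) hs

lemma famDual02_mem (i : Fin 4) : famDual02 i ∈ piece w12 (0, 2) := by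
  have hs : ((0, 1) : ℤ × ℤ) + (0, 1) = (0, 2) := by simp
  fin_cases i
  · exact mul_mem_piece (W_mem 1) (Submodule.sub_mem _ (W_mem 0) (W_mem 1)) hs
  · exact mul_mem_piece (W_mem 1) (W_mem 0) hs
  · exact mul_mem_piece (W_mem 2) (Submodule.add_mem _ (W_mem 0) (W_mem 2)) hs
  · exact mul_mem_piece (W_mem 2) (Submodule.sub_mem _ (W_mem 0) (W_mem 2)) hs

lemma famDual11_mem (i : Fin 4) : famDual11 i ∈ piece w12 (1, 1) := by
  have hs : ((1, 0) : ℤ × ℤ) + (0, 1) = (1, 1) := by simp
  fin_cases i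
  · exact mul_mem_piece (Submodule.sub_mem _ (Y_mem 1) (Y_mem 0)) (W_mem 1) hs
  · exact mul_mem_piece (Y_mem 0) (W_mem 1) hs
  · exact mul_mem_piece (Y_mem 0)
      (Submodule.add_mem _ (Submodule.sub_mem _ (W_mem 0) (W_mem 1)) (W_mem 2)) hs
  · exact mul_mem_piece (Y_mem 0)
      (Submodule.sub_mem _ (Submodule.sub_mem _ (W_mem 0) (W_mem 1)) (W_mem 2)) hs

lemma satDual02_zero (i k : Fin 4) (h : k ≠ i) : eval (satPts k) (satDual02 i) = 0 := by
  fin_cases i <;> fin_cases k <;> first
    | exact absurd rfl h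
    | (simp [satDual02, satPts]; try norm_num)

lemma satDual02_ne (i : Fin 4) : eval (satPts i) (satDual02 i) ≠ 0 := by
  fin_cases i <;> simp [satDual02, satPts] <;> norm_num

lemma satDual11_zero (i k : Fin 4) (h : k ≠ i) : eval (satPts k) (satDual11 i) = 0 := by
  fin_cases i <;> fin_cases k <;> first
    | exact absurd rfl h
    | (simp [satDual11, satPts]; try norm_num)

lemma satDual11_ne (i : Fin 4) : eval (satPts i) (satDual11 i) ≠ 0 := by
  fin_cases i <;> simp [satDual11, satPts] <;> norm_num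

lemma famDual02_zero (t : ℂ) (i k : Fin 4) (h : k ≠ i) :
    eval (famAt t k) (famDual02 i) = 0 := by
  fin_cases i <;> fin_cases k <;> first
    | exact absurd rfl h
    | (simp [famDual02, famAt]; try norm_num)

lemma famDual02_ne (t : ℂ) (i : Fin 4) : eval (famAt t i) (famDual02 i) ≠ 0 := by
  fin_cases i <;> simp [famDual02, famAt] <;> norm_num

lemma famDual11_zero (t : ℂ) (i k : Fin 4) (h : k ≠ i) :
    eval (famAt t k) (famDual11 i) = 0 := by
  fin_cases i <;> fin_cases k <;> first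
    | exact absurd rfl h
    | (simp [famDual11, famAt]; try norm_num)

lemma famDual11_ne (t : ℂ) (i : Fin 4) : eval (famAt t i) (famDual11 i) ≠ 0 := by
  fin_cases i <;> simp [famDual11, famAt] <;> norm_num

lemma satPts_good : GoodPoints satPts where
  det := by
    intro i j hij
    fin_cases i <;> fin_cases j <;> first
      | exact absurd rfl hij
      | (simp [satPts]; try norm_num)
  s02 := evMap_surjective_of_dual satDual02 satDual02_mem satDual02_zero satDual02_ne
  s11 := evMap_surjective_of_dual satDual11 satDual11_mem satDual11_zero satDual11_ne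
  i01 := by
    rw [← LinearMap.ker_eq_bot, LinearMap.ker_eq_bot']
    rintro ⟨f, hf⟩ h
    obtain ⟨a, rfl⟩ := exists_linear_inr (m := 1) (n := 2) hf
    have h0 := congrFun h 0
    have h1 := congrFun h 1
    have h3 := congrFun h 3
    rw [evMap_apply] at h0 h1 h3
    simp [satPts, Fin.sum_univ_three] at h0 h1 h3
    have e0 : a 0 = 0 := by linear_combination (h0 + h1) / 3
    have e1 : a 1 = 0 := by linear_combination e0 - h0
    apply Subtype.ext
    simp [Fin.sum_univ_three, e0, e1, h3]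
  l := ⟨Y 0, Y_mem 0, by intro i; fin_cases i <;> simp [satPts]⟩
  l' := ⟨W 0 + W 2, Submodule.add_mem _ (W_mem 0) (W_mem 2), by
    intro i; fin_cases i <;> simp [satPts]⟩

lemma famAt_good {t : ℂ} (h0 : t ≠ 0) (h1 : t ≠ 1) (h2 : 1 + t ≠ 0) : GoodPoints (famAt t) where
  det := by
    intro i j hij
    fin_cases i <;> fin_cases j <;> first
      | exact absurd rfl hij
      | (simp [famAt, h0]; try first | done | exact sub_ne_zero.2 h1 | exact sub_ne_zero.2 h1.symm)
  s02 := evMap_surjective_of_dual famDual02 famDual02_mem (famDual02_zero t) (famDual02_ne t)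
  s11 := evMap_surjective_of_dual famDual11 famDual11_mem (famDual11_zero t) (famDual11_ne t)
  i01 := by
    rw [← LinearMap.ker_eq_bot, LinearMap.ker_eq_bot']
    rintro ⟨f, hf⟩ h
    obtain ⟨a, rfl⟩ := exists_linear_inr (m := 1) (n := 2) hf
    have h0 := congrFun h 0
    have h1 := congrFun h 1
    have h3 := congrFun h 2
    rw [evMap_apply] at h0 h1 h3
    simp [famAt, Fin.sum_univ_three] at h0 h1 h3
    have e0 : a 0 = 0 := by linear_combination h1 - h0
    have e2 : a 2 = 0 := by linear_combination h3 - e0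
    apply Subtype.ext
    simp [Fin.sum_univ_three, e0, h0, e2]
  l := ⟨Y 0 + Y 1, Submodule.add_mem _ (Y_mem 0) (Y_mem 1), by
    intro i; fin_cases i <;> simp [famAt, h2]⟩
  l' := ⟨2 * W 0 + W 1 + W 2,
    Submodule.add_mem _ (Submodule.add_mem _ (two_mul_mem (W_mem 0)) (W_mem 1)) (W_mem 2), by
    intro i; fin_cases i <;> simp [famAt] <;> norm_num⟩

/-- The good parameters. -/
def goodParams : Set ℂ := {t | t ≠ 0 ∧ t ≠ 1 ∧ 1 + t ≠ 0}

lemma goodParams_infinite : goodParams.Infinite := by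
  have h : goodParams = ({0, 1, -1} : Set ℂ)ᶜ := by
    ext t
    simp only [goodParams, Set.mem_ofPred_eq, Set.mem_compl_iff, Set.mem_insert_iff,
      Set.mem_singleton_iff, not_or]
    refine and_congr_right fun _ => and_congr_right fun _ => not_congr ?_
    constructor
    · intro h; linear_combination h
    · intro h; rw [h]; ring
  rw [h]
  exact Set.Finite.infinite_compl (by simp)

lemma famPts_good : ∀ c ∈ goodParams, AreDistinctPoints w12 B12 (pointsAt famPts c) ∧ ∀ u,
    Function.Surjective (evMap w12 (pointsAt famPts c) u) ∨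
      Function.Injective (evMap w12 (pointsAt famPts c) u) := by
  rintro c ⟨h0, h1, h2⟩
  rw [pointsAt_famPts]
  have h := famAt_good h0 h1 h2
  exact ⟨h.distinct, h.hilb⟩

/-- The nonsaturated limit ideal. -/
def limitPoint : MultiHilb w12 (genericHF w12 4) :=
  limitHilb w12 famPts goodParams_infinite famPts_good 0

lemma limitPoint_mem_slip : limitPoint ∈ Slip w12 B12 4 :=
  limitHilb_mem_slip w12 famPts goodParams_infinite famPts_good 0

lemma limitPoint_le : limitPoint.1 ≤ idealOfPoints w12 (famAt 0) := by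
  rw [← pointsAt_famPts]
  exact limitIdeal_le w12 famPts 0

/-- The saturated ideal of the first decomposition. -/
def satPoint : MultiHilb w12 (genericHF w12 4) := satPts_good.toHilb

lemma satPoint_mem_VSP : satPoint ∈ borderVSP w12 B12 exampleForm 4 := by
  refine ⟨satPts_good.toHilb_mem_slip, fun g hg => ?_⟩
  rw [exampleForm_eq_sat]
  exact apolar_eq_zero_of_mem_idealOfPoints w12 (v := ((2, 2) : ℤ × ℤ))
    (fun i => coneForm_mem _ _) (fun i => apolar_coneForm _ _) hg

lemma limitPoint_mem_VSP : limitPoint ∈ borderVSP w12 B12 exampleForm 4 := by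
  refine ⟨limitPoint_mem_slip, fun g hg => ?_⟩
  rw [exampleForm_eq_fam]
  exact apolar_eq_zero_of_mem_idealOfPoints w12 (v := ((2, 2) : ℤ × ℤ))
    (fun i => coneForm_mem _ _) (fun i => apolar_coneForm _ _) (limitPoint_le hg)

/-- Dual forms span a complement of every subspace of the ideal of the points. -/
lemma mem_complSet_of_dual {h : ℤ × ℤ → ℕ} {Z : Fin 4 → Fin 2 ⊕ Fin 3 → ℂ} {u : ℤ × ℤ}
    (f : Fin 4 → S12)
    (h0 : ∀ i k, k ≠ i → eval (Z k) (f i) = 0) (h1 : ∀ i, eval (Z i) (f i) ≠ 0)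
    {J : MultiHilb w12 h} (hJ : J.1 ≤ idealOfPoints w12 Z) :
    J ∈ complSet w12 (h := h) u f := by
  classical
  have key : ∀ a : Fin 4 → ℂ, ∀ k, eval (Z k) (∑ i, a i • f i) = a k * eval (Z k) (f k) := by
    intro a k
    rw [map_sum, Finset.sum_eq_single k]
    · rw [smul_eval]
    · intro i _ hi
      rw [smul_eval, h0 i k hi.symm, mul_zero]
    · intro h; exact absurd (Finset.mem_univ _) h
  constructor
  · rw [Fintype.linearIndependent_iff]
    intro a ha k
    have := key a k
    rw [ha, map_zero] at this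
    exact (mul_eq_zero.1 this.symm).resolve_right (h1 k)
  · rw [Submodule.disjoint_def]
    intro g hg hgJ
    obtain ⟨a, rfl⟩ := (Submodule.mem_span_range_iff_exists_fun ℂ).1 hg
    have ha : a = 0 := by
      funext k
      have h2 := key a k
      rw [eval_eq_zero_of_mem_idealOfPoints (hJ hgJ.1) k] at h2
      exact (mul_eq_zero.1 h2.symm).resolve_right (h1 k)
    simp [ha]

end Pool.Agent.BorderVSP
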