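import Pool.Agent.helper92.VSP.Points

/-!
# Limits of ideals of points in one-parameter families
-/

set_option autoImplicit false

open MvPolynomial

noncomputable section

namespace Pool.Agent.BorderVSP

variable {σ M : Type} [AddCommGroup M] (w : σ → M)

section OfCoords

variable {R : Type} [CommRing R]

/-- The form of degree `u` with given coefficients. -/
def ofCoords [hfin : ∀ u, Finite (Expo w u)] (u : M) :
    (Expo w u → R) →ₗ[R] MvPolynomial σ R :=
  letI := Fintype.ofFinite (Expo w u)
  ∑ d : Expo w u, (monomial d.1) ∘ₗ LinearMap.proj d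

lemma coeff_ofCoords [hfin : ∀ u, Finite (Expo w u)] {u : M} (a : Expo w u → R)
    (d : Expo w u) : coeff d.1 (ofCoords w u a) = a d := by
  classical
  letI := Fintype.ofFinite (Expo w u)
  have h : ofCoords w u a = ∑ d : Expo w u, monomial d.1 (a d) := by
    simp [ofCoords, LinearMap.sum_apply]
  rw [h, coeff_sum, Finset.sum_eq_single d]
  · simp
  · intro b _ hb
    rw [coeff_monomial, if_neg]
    intro h; exact hb (Subtype.ext h)
  · intro h; exact absurd (Finset.mem_univ _) h

lemma ofCoords_mem [hfin : ∀ u, Finite (Expo w u)] {u : M} (a : Expo w u → R) :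
    ofCoords w u a ∈ weightedHomogeneousSubmodule R w u := by
  classical
  letI := Fintype.ofFinite (Expo w u)
  have h : ofCoords w u a = ∑ d : Expo w u, monomial d.1 (a d) := by
    simp [ofCoords, LinearMap.sum_apply]
  rw [h]
  exact Submodule.sum_mem _ fun d _ => isWeightedHomogeneous_monomial w d.1 _ d.2

lemma ofCoords_coeff [hfin : ∀ u, Finite (Expo w u)] {u : M} {f : MvPolynomial σ R}
    (hf : f ∈ weightedHomogeneousSubmodule R w u) :
    ofCoords w u (fun d => coeff d.1 f) = f := by
  ext n
  by_cases hn : Finsupp.weight w n = u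
  · exact coeff_ofCoords w (fun d : Expo w u => coeff d.1 f) ⟨n, hn⟩
  · rw [IsWeightedHomogeneous.coeff_eq_zero (ofCoords_mem w _) n hn,
      IsWeightedHomogeneous.coeff_eq_zero hf n hn]

end OfCoords

variable {r : ℕ} (x : Fin r → σ → Polynomial ℂ)

/-- The points of the family at the parameter `c`. -/
def pointsAt (c : ℂ) : Fin r → σ → ℂ := fun i s => (x i s).eval c

/-- Specialisation of the parameter. -/
def specialize (c : ℂ) : MvPolynomial σ (Polynomial ℂ) →+* MvPolynomial σ ℂ :=
  map (Polynomial.evalRingHom c)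

lemma coeff_specialize (c : ℂ) (f : MvPolynomial σ (Polynomial ℂ)) (n : σ →₀ ℕ) :
    coeff n (specialize c f) = (coeff n f).eval c := by
  rw [specialize, coeff_map]; rfl

lemma eval_specialize (c : ℂ) (f : MvPolynomial σ (Polynomial ℂ)) (i : Fin r) :
    eval (pointsAt x c i) (specialize c f) = (eval (x i) f).eval c := by
  induction f using MvPolynomial.induction_on with
  | C a => simp [specialize]
  | add p q hp hq => simp [map_add, hp, hq]
  | mul_X p s hp =>
    rw [map_mul, map_mul, hp, map_mul, Polynomial.eval_mul]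
    congr 1
    simp [specialize, pointsAt]

lemma specialize_ofCoords [hfin : ∀ u, Finite (Expo w u)] (c : ℂ) {u : M}
    (a : Expo w u → Polynomial ℂ) :
    specialize c (ofCoords w u a) = ofCoords w u (fun d => (a d).eval c) := by
  ext n
  rw [coeff_specialize]
  by_cases hn : Finsupp.weight w n = u
  · have h1 := coeff_ofCoords w a ⟨n, hn⟩
    have h2 := coeff_ofCoords w (fun d : Expo w u => (a d).eval c) ⟨n, hn⟩
    simp only at h1 h2
    rw [h1, h2]
  · rw [IsWeightedHomogeneous.coeff_eq_zero (ofCoords_mem w a) n hn,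
      IsWeightedHomogeneous.coeff_eq_zero (ofCoords_mem w _) n hn, Polynomial.eval_zero]

lemma specialize_mem (c : ℂ) {u : M} {f : MvPolynomial σ (Polynomial ℂ)}
    (hf : f ∈ weightedHomogeneousSubmodule (Polynomial ℂ) w u) : specialize c f ∈ piece w u := by
  intro n hn
  rw [coeff_specialize] at hn
  refine hf (d := n) fun h => hn ?_
  rw [h, Polynomial.eval_zero]

/-- Forms of degree `u`, with coefficients depending polynomially on the parameter, which vanish
on the whole family of points. -/
def famPiece (u : M) : Submodule (Polynomial ℂ) (MvPolynomial σ (Polynomial ℂ)) :=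
  weightedHomogeneousSubmodule (Polynomial ℂ) w u ⊓
    ⨅ i, LinearMap.ker (aeval (x i) : MvPolynomial σ (Polynomial ℂ) →ₐ[Polynomial ℂ] _).toLinearMap

lemma mem_famPiece {u : M} {f : MvPolynomial σ (Polynomial ℂ)} :
    f ∈ famPiece w x u ↔ f ∈ weightedHomogeneousSubmodule (Polynomial ℂ) w u ∧
      ∀ i, eval (x i) f = 0 := by
  rw [famPiece, Submodule.mem_inf, Submodule.mem_iInf]
  refine and_congr_right fun _ => forall_congr' fun i => ?_
  simp [LinearMap.mem_ker]

/-- The flat limit, at the parameter `c`, of the ideals of the points of the family. -/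
def limitIdeal (c : ℂ) : Ideal (MvPolynomial σ ℂ) :=
  Ideal.span {g | ∃ u : M, ∃ f ∈ famPiece w x u, g = specialize c f}

/-- The graded piece of the limit. -/
def limitPiece (c : ℂ) (u : M) : Submodule ℂ (MvPolynomial σ ℂ) where
  carrier := {g | ∃ f ∈ famPiece w x u, g = specialize c f}
  add_mem' := by
    rintro _ _ ⟨f, hf, rfl⟩ ⟨f', hf', rfl⟩
    exact ⟨f + f', Submodule.add_mem _ hf hf', (map_add _ _ _).symm⟩
  zero_mem' := ⟨0, Submodule.zero_mem _, (map_zero _).symm⟩
  smul_mem' := by
    rintro a _ ⟨f, hf, rfl⟩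
    refine ⟨Polynomial.C a • f, Submodule.smul_mem _ _ hf, ?_⟩
    ext n
    rw [coeff_smul, coeff_specialize, coeff_specialize, coeff_smul, smul_eq_mul, smul_eq_mul,
      Polynomial.eval_mul, Polynomial.eval_C]

lemma limitPiece_le_piece (c : ℂ) (u : M) : limitPiece w x c u ≤ piece w u := by
  rintro _ ⟨f, hf, rfl⟩
  exact specialize_mem w c ((mem_famPiece w x).1 hf).1

lemma monomial_mul_mem_limitPiece {c : ℂ} {u : M} {g : MvPolynomial σ ℂ}
    (hg : g ∈ limitPiece w x c u) (n : σ →₀ ℕ) (b : ℂ) :
    monomial n b * g ∈ limitPiece w x c (Finsupp.weight w n + u) := by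
  obtain ⟨f, hf, rfl⟩ := hg
  rw [mem_famPiece] at hf
  refine ⟨monomial n (Polynomial.C b) * f, ?_, ?_⟩
  · rw [mem_famPiece]
    refine ⟨(isWeightedHomogeneous_monomial w n _ rfl).mul hf.1, fun i => ?_⟩
    rw [map_mul, hf.2 i, mul_zero]
  · rw [map_mul]
    congr 1
    simp [specialize]

lemma component_mem_limitPiece (c : ℂ) {g : MvPolynomial σ ℂ} (hg : g ∈ limitIdeal w x c) :
    ∀ u : M, weightedHomogeneousComponent w u g ∈ limitPiece w x c u := by
  classical
  refine Submodule.span_induction
    (p := fun g _ => ∀ u : M, weightedHomogeneousComponent w u g ∈ limitPiece w x c u)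
    ?_ ?_ ?_ ?_ hg
  · rintro _ ⟨v, f, hf, rfl⟩ u
    rw [weightedHomogeneousComponent_of_mem (specialize_mem w c ((mem_famPiece w x).1 hf).1)]
    split_ifs with h
    · subst h; exact ⟨f, hf, rfl⟩
    · exact Submodule.zero_mem _
  · intro u; rw [map_zero]; exact Submodule.zero_mem _
  · intro f g _ _ hf hg u
    rw [map_add]; exact Submodule.add_mem _ (hf u) (hg u)
  · intro a g _ hg
    rw [smul_eq_mul]
    induction a using MvPolynomial.induction_on' with
    | add p q hp hq =>
      intro u
      rw [add_mul, map_add]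
      exact Submodule.add_mem _ (hp u) (hq u)
    | monomial n b =>
      intro u
      have h1 : monomial n b ∈ piece w (Finsupp.weight w n) :=
        isWeightedHomogeneous_monomial w n b rfl
      have h2 := component_mul_of_mem (f := g) h1 (u - Finsupp.weight w n)
      rw [add_sub_cancel] at h2
      rw [h2]
      have h3 := monomial_mul_mem_limitPiece w x (hg (u - Finsupp.weight w n)) n b
      rwa [add_sub_cancel] at h3

lemma idealPiece_limitIdeal (c : ℂ) (u : M) :
    idealPiece w (limitIdeal w x c) u = limitPiece w x c u := by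
  apply le_antisymm
  · rintro g ⟨hg, hgu⟩
    have := component_mem_limitPiece w x c hg u
    rwa [weightedHomogeneousComponent_eq_self hgu] at this
  · rintro g hg
    exact ⟨Ideal.subset_span ⟨u, hg⟩, limitPiece_le_piece w x c u hg⟩

lemma isHomogIdeal_limitIdeal (c : ℂ) : IsHomogIdeal w (limitIdeal w x c) :=
  isHomogIdeal_span w fun _ ⟨u, hg⟩ => ⟨u, limitPiece_le_piece w x c u hg⟩

lemma limitIdeal_le (c : ℂ) : limitIdeal w x c ≤ idealOfPoints w (pointsAt x c) := by
  rw [limitIdeal, Ideal.span_le]
  rintro _ ⟨u, f, hf, rfl⟩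
  refine Ideal.subset_span ⟨⟨u, specialize_mem w c ((mem_famPiece w x).1 hf).1⟩, fun i => ?_⟩
  rw [eval_specialize, ((mem_famPiece w x).1 hf).2 i, Polynomial.eval_zero]

section Basis

variable [hfin : ∀ u, Finite (Expo w u)]

/-- The evaluation of a family of forms at the family of points. -/
def famMap (u : M) :
    (Expo w u → Polynomial ℂ) →ₗ[Polynomial ℂ] (Fin r → Polynomial ℂ) :=
  LinearMap.pi fun i => (aeval (x i) : MvPolynomial σ (Polynomial ℂ) →ₐ[Polynomial ℂ] _).toLinearMap
    ∘ₗ ofCoords w u

lemma famMap_apply {u : M} (a : Expo w u → Polynomial ℂ) (i : Fin r) :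
    famMap w x u a i = eval (x i) (ofCoords w u a) := by
  simp [famMap]

lemma ofCoords_mem_famPiece {u : M} {a : Expo w u → Polynomial ℂ}
    (ha : a ∈ LinearMap.ker (famMap w x u)) : ofCoords w u a ∈ famPiece w x u := by
  rw [mem_famPiece]
  refine ⟨ofCoords_mem w a, fun i => ?_⟩
  rw [← famMap_apply]
  exact congrFun ha i

lemma coeff_mem_ker_famMap {u : M} {f : MvPolynomial σ (Polynomial ℂ)}
    (hf : f ∈ famPiece w x u) :
    (fun d : Expo w u => coeff d.1 f) ∈ LinearMap.ker (famMap w x u) := by
  rw [mem_famPiece] at hf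
  rw [LinearMap.mem_ker]
  funext i
  rw [famMap_apply, ofCoords_coeff w hf.1, hf.2 i]
  rfl

/-- The number of elements of a basis of `famPiece`. -/
def famRank (u : M) : ℕ :=
  (Submodule.basisOfPid (Pi.basisFun (Polynomial ℂ) (Expo w u))
    (LinearMap.ker (famMap w x u))).1

/-- A basis of `famPiece` over `ℂ[t]`. -/
def famBasis (u : M) : Module.Basis (Fin (famRank w x u)) (Polynomial ℂ)
    (LinearMap.ker (famMap w x u)) :=
  (Submodule.basisOfPid (Pi.basisFun (Polynomial ℂ) (Expo w u))
    (LinearMap.ker (famMap w x u))).2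

/-- The basis of `famPiece`, specialised at `c`. -/
def famVec (c : ℂ) (u : M) (j : Fin (famRank w x u)) : MvPolynomial σ ℂ :=
  specialize c (ofCoords w u (famBasis w x u j).1)

lemma famVec_mem (c : ℂ) (u : M) (j : Fin (famRank w x u)) :
    famVec w x c u j ∈ limitPiece w x c u :=
  ⟨_, ofCoords_mem_famPiece w x (famBasis w x u j).2, rfl⟩

lemma linearIndependent_famVec (c : ℂ) (u : M) : LinearIndependent ℂ (famVec w x c u) := by
  classical
  rw [Fintype.linearIndependent_iff]
  intro l hl j
  -- the combination vanishes at `c`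
  set β := famBasis w x u
  set a : Expo w u → Polynomial ℂ := ∑ j, Polynomial.C (l j) • (β j).1 with ha
  have h1 : ∀ d : Expo w u, (a d).eval c = 0 := by
    intro d
    have h2 := congrArg (coeff d.1) hl
    rw [coeff_sum, coeff_zero] at h2
    rw [ha, Finset.sum_apply, Polynomial.eval_finsetSum, ← h2]
    refine Finset.sum_congr rfl fun j _ => ?_
    rw [coeff_smul, famVec, coeff_specialize, coeff_ofCoords]
    simp [β]
  choose q hq using fun d => Polynomial.dvd_iff_isRoot.2 (h1 d)
  have ha2 : a = (Polynomial.X - Polynomial.C c) • q := by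
    funext d; rw [hq d]; simp
  have hX : (Polynomial.X - Polynomial.C c : Polynomial ℂ) ≠ 0 := Polynomial.X_sub_C_ne_zero c
  have haK : a ∈ LinearMap.ker (famMap w x u) := by
    rw [ha]
    exact Submodule.sum_mem _ fun j _ => Submodule.smul_mem _ _ (β j).2
  have hqK : q ∈ LinearMap.ker (famMap w x u) := by
    rw [LinearMap.mem_ker] at haK ⊢
    rw [ha2, map_smul] at haK
    exact (smul_eq_zero.1 haK).resolve_left hX
  have h3 : ∑ j, (Polynomial.C (l j)) • β j =
      (Polynomial.X - Polynomial.C c) • (⟨q, hqK⟩ : LinearMap.ker (famMap w x u)) := by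
    apply Subtype.ext
    rw [Submodule.coe_sum]
    exact ha.symm.trans ha2
  have h4 : β.repr (∑ j, (Polynomial.C (l j)) • β j) j = β.repr ((Polynomial.X - Polynomial.C c) •
      (⟨q, hqK⟩ : LinearMap.ker (famMap w x u))) j := by rw [h3]
  rw [β.repr_sum_self, map_smul, Finsupp.smul_apply, smul_eq_mul] at h4
  have h6 := congrArg (Polynomial.eval c) h4
  simpa using h6

lemma span_famVec (c : ℂ) (u : M) :
    Submodule.span ℂ (Set.range (famVec w x c u)) = limitPiece w x c u := by
  classical
  apply le_antisymm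
  · rw [Submodule.span_le]
    rintro _ ⟨j, rfl⟩
    exact famVec_mem w x c u j
  · rintro _ ⟨f, hf, rfl⟩
    set β := famBasis w x u
    have hK := coeff_mem_ker_famMap w x hf
    have h1 := β.sum_repr ⟨_, hK⟩
    have h2 : f = ∑ j, β.repr ⟨_, hK⟩ j • ofCoords w u (β j).1 := by
      have h3 := congrArg (fun t : LinearMap.ker (famMap w x u) => ofCoords w u t.1) h1
      simp only [Submodule.coe_sum, Submodule.coe_smul, map_sum, map_smul] at h3
      rw [ofCoords_coeff w ((mem_famPiece w x).1 hf).1] at h3
      exact h3.symm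
    rw [h2, map_sum]
    refine Submodule.sum_mem _ fun j _ => ?_
    have h4 : specialize c (β.repr ⟨_, hK⟩ j • ofCoords w u (β j).1) =
        ((β.repr ⟨_, hK⟩ j).eval c) • famVec w x c u j := by
      ext n
      rw [coeff_specialize, coeff_smul, coeff_smul, famVec, coeff_specialize, smul_eq_mul,
        Polynomial.eval_mul, smul_eq_mul]
    rw [h4]
    exact Submodule.smul_mem _ _ (Submodule.subset_span ⟨j, rfl⟩)

lemma finrank_limitPiece (c : ℂ) (u : M) :
    Module.finrank ℂ (limitPiece w x c u) = famRank w x u := by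
  rw [← span_famVec, finrank_span_eq_card (linearIndependent_famVec w x c u), Fintype.card_fin]

lemma card_le_famRank_add (u : M) : Nat.card (Expo w u) ≤ famRank w x u + r := by
  classical
  have := Fintype.ofFinite (Expo w u)
  have h1 := Submodule.finrank_quotient_add_finrank (LinearMap.ker (famMap w x u))
  have h2 : Module.finrank (Polynomial ℂ) (LinearMap.ker (famMap w x u)) = famRank w x u := by
    rw [Module.finrank_eq_card_basis (famBasis w x u), Fintype.card_fin]
  have h3 : Module.finrank (Polynomial ℂ) ((Expo w u → Polynomial ℂ) ⧸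
      LinearMap.ker (famMap w x u)) ≤ r := by
    rw [(famMap w x u).quotKerEquivRange.finrank_eq]
    have := Submodule.finrank_le (LinearMap.range (famMap w x u))
    simpa using this
  rw [h2, Module.finrank_fintype_fun_eq_card] at h1
  rw [Nat.card_eq_fintype_card]
  omega

lemma eval_map_C {ι : Type} (g : ι → Polynomial ℂ) (c : ℂ) (p : MvPolynomial ι ℂ) :
    (eval g (map Polynomial.C p)).eval c = eval (fun i => (g i).eval c) p := by
  induction p using MvPolynomial.induction_on with
  | C a => simp
  | add p q hp hq => rw [map_add, map_add, Polynomial.eval_add, hp, hq, map_add]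
  | mul_X p s hp =>
    rw [map_mul, map_mul, Polynomial.eval_mul, hp, map_mul, map_X, eval_X, eval_X]

section Slip

variable {B : Ideal (MvPolynomial σ ℂ)} {G : Set ℂ} (hG : G.Infinite)
  (hgood : ∀ c ∈ G, AreDistinctPoints w B (pointsAt x c) ∧ ∀ u,
    Function.Surjective (evMap w (pointsAt x c) u) ∨
      Function.Injective (evMap w (pointsAt x c) u))

include hG hgood

lemma famRank_eq (u : M) : famRank w x u = frameSize w (genericHF w r) u := by
  obtain ⟨c, hc⟩ := hG.nonempty
  obtain ⟨-, h⟩ := hgood c hc
  have h1 := finrank_idealPiece_of_hilb w (pointsHilb (pointsAt x c) h) u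
  have h2 : famRank w x u ≤ frameSize w (genericHF w r) u := by
    rw [← h1, ← finrank_limitPiece w x c u, ← idealPiece_limitIdeal]
    refine Submodule.finrank_mono ?_
    exact inf_le_inf_right _ (limitIdeal_le w x c)
  have h3 := card_le_famRank_add w x u
  rw [← finrank_piece] at h3
  refine le_antisymm h2 ?_
  unfold frameSize genericHF
  omega

lemma hilbertFn_limitIdeal (c : ℂ) (u : M) :
    hilbertFn w (limitIdeal w x c) u = genericHF w r u := by
  obtain ⟨c', hc'⟩ := hG.nonempty
  obtain ⟨-, h⟩ := hgood c' hc'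
  have h1 := finrank_idealPiece_add_hilbertFn w (limitIdeal w x c) u
  rw [idealPiece_limitIdeal, finrank_limitPiece, famRank_eq w x hG hgood u,
    ← frameSize_add w (pointsHilb (pointsAt x c') h) u] at h1
  omega

/-- The limit ideal, as a point of the multigraded Hilbert scheme. -/
def limitHilb (c : ℂ) : MultiHilb w (genericHF w r) :=
  ⟨limitIdeal w x c, isHomogIdeal_limitIdeal w x c, hilbertFn_limitIdeal w x hG hgood c⟩

theorem limitHilb_mem_slip (c₀ : ℂ) : limitHilb w x hG hgood c₀ ∈ Slip w B r := by
  classical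
  have hrank := famRank_eq w x hG hgood
  let b : ℂ → (u : M) → Fin (frameSize w (genericHF w r) u) → MvPolynomial σ ℂ :=
    fun c u i => famVec w x c u (Fin.cast (hrank u).symm i)
  have hbli : ∀ c u, LinearIndependent ℂ (b c u) := fun c u =>
    (linearIndependent_famVec w x c u).comp _ (Fin.cast_injective _)
  have hframe₀ : IsFrame w (limitHilb w x hG hgood c₀) (b c₀) := by
    refine exists_isFrame_extending w _ _ fun u => ⟨hbli c₀ u, fun i => ?_⟩
    change b c₀ u i ∈ idealPiece w (limitIdeal w x c₀) u
    rw [idealPiece_limitIdeal]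
    exact famVec_mem w x c₀ u _
  have hframe : ∀ c (hc : c ∈ G),
      IsFrame w (pointsHilb (pointsAt x c) (hgood c hc).2) (b c) := by
    intro c hc
    refine exists_isFrame_extending w _ _ fun u => ⟨hbli c u, fun i => ?_⟩
    change b c u i ∈ idealPiece w (idealOfPoints w (pointsAt x c)) u
    have h1 : b c u i ∈ idealPiece w (limitIdeal w x c) u := by
      rw [idealPiece_limitIdeal]; exact famVec_mem w x c u _
    exact ⟨limitIdeal_le w x c h1.1, h1.2⟩
  rw [Slip, closure]
  rintro A ⟨hA, hsub⟩
  rw [isClosed_iff_isZariskiClosed] at hA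
  obtain ⟨P, hP⟩ := hA
  rw [hP _ _ hframe₀]
  intro p hp
  let Φ : Polynomial ℂ := eval (fun y : FrameVar w (genericHF w r) =>
    coeff y.2.2 (ofCoords w y.1 (famBasis w x y.1 (Fin.cast (hrank y.1).symm y.2.1)).1))
    (map Polynomial.C p)
  have hΦ : ∀ c, Φ.eval c = evalFrame w (genericHF w r) (b c) p := by
    intro c
    rw [evalFrame, eval_map_C]
    have hfun : (fun y : FrameVar w (genericHF w r) => (coeff y.2.2 (ofCoords w y.1
        (famBasis w x y.1 (Fin.cast (hrank y.1).symm y.2.1)).1)).eval c) =
        fun y : FrameVar w (genericHF w r) => coeff y.2.2 (b c y.1 y.2.1) := by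
      funext y
      exact (coeff_specialize c _ _).symm
    rw [hfun]
  have hzero : Φ = 0 := by
    refine Polynomial.eq_zero_of_infinite_isRoot Φ (hG.mono fun c hc => ?_)
    change Φ.eval c = 0
    rw [hΦ]
    refine (hP _ _ (hframe c hc)).1 (hsub ?_) p hp
    exact ⟨pointsAt x c, (hgood c hc).1, rfl⟩
  rw [← hΦ, hzero, Polynomial.eval_zero]

end Slip

end Basis

end Pool.Agent.BorderVSP
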