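import Pool.Agent.helper92.VSP.Frames

/-!
# Ideals of points
-/

set_option autoImplicit false

open MvPolynomial

noncomputable section

namespace Pool.Agent.BorderVSP

variable {σ M : Type} [AddCommGroup M] (w : σ → M)

section Homog

attribute [local instance] MvPolynomial.weightedGradedAlgebra

lemma isHomogIdeal_iff [DecidableEq M] (I : Ideal (MvPolynomial σ ℂ)) :
    IsHomogIdeal w I ↔ I.IsHomogeneous (weightedHomogeneousSubmodule ℂ w) := by
  constructor
  · intro h i f hf
    have := h f hf i
    rwa [← decompose'_apply ℂ w f i] at this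
  · intro h f hf u
    exact weightedHomogeneousComponent_mem_of_mem ℂ w h hf u

lemma isHomogIdeal_span {s : Set (MvPolynomial σ ℂ)} (hs : ∀ f ∈ s, ∃ u : M, f ∈ piece w u) :
    IsHomogIdeal w (Ideal.span s) := by
  classical
  rw [isHomogIdeal_iff]
  exact Ideal.homogeneous_span _ _ fun f hf => hs f hf

end Homog

variable {w}

lemma IsHomogIdeal.mem_of_components {I : Ideal (MvPolynomial σ ℂ)}
    {f : MvPolynomial σ ℂ} (h : ∀ u : M, weightedHomogeneousComponent w u f ∈ I) : f ∈ I := by
  rw [← sum_weightedHomogeneousComponent w f]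
  rw [finsum_eq_sum _ (weightedHomogeneousComponent_finsupp f)]
  exact I.sum_mem fun u _ => h u

/-- Component of a product with a homogeneous factor. -/
lemma component_mul_of_mem {g f : MvPolynomial σ ℂ} {v : M} (hg : g ∈ piece w v) (u : M) :
    weightedHomogeneousComponent w (v + u) (g * f) =
      g * weightedHomogeneousComponent w u f := by
  classical
  have key : ∀ n : σ →₀ ℕ, ∀ a : ℂ, weightedHomogeneousComponent w (v + u) (g * monomial n a) =
      g * weightedHomogeneousComponent w u (monomial n a) := by
    intro n a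
    have h1 : monomial n a ∈ piece w (Finsupp.weight w n) :=
      isWeightedHomogeneous_monomial w n a rfl
    have h2 : g * monomial n a ∈ piece w (v + Finsupp.weight w n) :=
      IsWeightedHomogeneous.mul hg h1
    rw [weightedHomogeneousComponent_of_mem h2, weightedHomogeneousComponent_of_mem h1]
    by_cases h : u = Finsupp.weight w n
    · simp [h]
    · rw [if_neg h, if_neg (fun h' => h (add_left_cancel h')), mul_zero]
  induction f using MvPolynomial.induction_on' with
  | add p q hp hq => rw [mul_add, map_add, hp, hq, map_add, mul_add]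
  | monomial n a => exact key n a

/-- A homogeneous ideal with a homogeneous nonzerodivisor in `B` (tested on homogeneous elements)
is saturated. -/
lemma isSaturated_of_nonzerodivisor {B J : Ideal (MvPolynomial σ ℂ)} (hJ : IsHomogIdeal w J)
    {b : MvPolynomial σ ℂ} (hb : b ∈ B) {v : M} (hbv : b ∈ piece w v)
    (H : ∀ u : M, ∀ f ∈ piece w u, b * f ∈ J → f ∈ J) : IsSaturated B J := by
  have H' : ∀ f, b * f ∈ J → f ∈ J := by
    intro f hf
    refine IsHomogIdeal.mem_of_components (w := w) fun u => ?_
    refine H u _ (weightedHomogeneousComponent_mem w f u) ?_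
    rw [← component_mul_of_mem hbv]
    exact hJ _ hf _
  intro f ⟨k, hk⟩
  have hpow : ∀ k : ℕ, ∀ f, b ^ k * f ∈ J → f ∈ J := by
    intro k
    induction k with
    | zero => intro f hf; simpa using hf
    | succ k ih =>
      intro f hf
      refine ih f (H' _ ?_)
      rw [← mul_assoc, ← pow_succ']
      exact hf
  exact hpow k f (hk _ (Ideal.pow_mem_pow hb k))

variable {r : ℕ} {Z : Fin r → σ → ℂ}

lemma eval_eq_zero_of_mem_idealOfPoints {f : MvPolynomial σ ℂ} (hf : f ∈ idealOfPoints w Z)
    (i : Fin r) : eval (Z i) f = 0 := by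
  have hle : idealOfPoints w Z ≤ RingHom.ker (eval (Z i)) := by
    rw [idealOfPoints, Ideal.span_le]
    rintro f ⟨-, hf⟩
    exact hf i
  exact hle hf

lemma mem_idealOfPoints_iff {f : MvPolynomial σ ℂ} {u : M} (hf : f ∈ piece w u) :
    f ∈ idealOfPoints w Z ↔ ∀ i, eval (Z i) f = 0 :=
  ⟨fun h i => eval_eq_zero_of_mem_idealOfPoints h i,
    fun h => Ideal.subset_span ⟨⟨u, hf⟩, h⟩⟩

variable (w Z) in
lemma isHomogIdeal_idealOfPoints : IsHomogIdeal w (idealOfPoints w Z) :=
  isHomogIdeal_span w fun _ hf => hf.1

variable (w Z) in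
/-- The evaluation of forms of degree `u` at the points. -/
def evMap (u : M) : piece w u →ₗ[ℂ] (Fin r → ℂ) :=
  (LinearMap.pi fun i => (aeval (Z i)).toLinearMap : MvPolynomial σ ℂ →ₗ[ℂ] (Fin r → ℂ)).domRestrict
    (piece w u)

@[simp] lemma evMap_apply {u : M} (f : piece w u) (i : Fin r) :
    evMap w Z u f i = eval (Z i) f.1 := by
  simp [evMap]

lemma hilbertFn_idealOfPoints [hfin : ∀ u, Finite (Expo w u)] (u : M) :
    hilbertFn w (idealOfPoints w Z) u = Module.finrank ℂ (LinearMap.range (evMap w Z u)) := by
  have h1 := finrank_idealPiece_add_hilbertFn w (idealOfPoints w Z) u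
  have h2 := (evMap w Z u).finrank_range_add_finrank_ker
  have h3 : Module.finrank ℂ (LinearMap.ker (evMap w Z u)) =
      Module.finrank ℂ (idealPiece w (idealOfPoints w Z) u) := by
    have e := Submodule.comapSubtypeEquivOfLe
      (inf_le_right : idealPiece w (idealOfPoints w Z) u ≤ piece w u)
    rw [← e.finrank_eq]
    have hc : LinearMap.ker (evMap w Z u) =
        Submodule.comap (piece w u).subtype (idealPiece w (idealOfPoints w Z) u) := by
      ext ⟨f, hf⟩
      rw [LinearMap.mem_ker, Submodule.mem_comap, mem_idealPiece]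
      simp only [Submodule.subtype_apply]
      rw [mem_idealOfPoints_iff hf]
      constructor
      · intro h
        refine ⟨fun i => ?_, hf⟩
        have := congrFun h i
        simpa using this
      · intro h
        funext i
        simpa using h.1 i
    rw [hc]
  omega

lemma hilbertFn_of_surjective [hfin : ∀ u, Finite (Expo w u)] {u : M}
    (h : Function.Surjective (evMap w Z u)) :
    hilbertFn w (idealOfPoints w Z) u = r ∧ genericHF w r u = r := by
  have h1 : hilbertFn w (idealOfPoints w Z) u = r := by
    rw [hilbertFn_idealOfPoints, LinearMap.range_eq_top.2 h, finrank_top]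
    simp
  refine ⟨h1, ?_⟩
  have h2 := finrank_idealPiece_add_hilbertFn w (idealOfPoints w Z) u
  rw [genericHF]
  omega

lemma hilbertFn_of_injective [hfin : ∀ u, Finite (Expo w u)] {u : M}
    (h : Function.Injective (evMap w Z u)) :
    hilbertFn w (idealOfPoints w Z) u = genericHF w r u := by
  rw [hilbertFn_idealOfPoints, LinearMap.finrank_range_of_inj h, genericHF]
  have := LinearMap.finrank_le_finrank_of_injective h
  simp only [Module.finrank_fintype_fun_eq_card, Fintype.card_fin] at this
  omega

/-- The ideal of points as a point of the multigraded Hilbert scheme. -/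
def pointsHilb [hfin : ∀ u, Finite (Expo w u)] (Z : Fin r → σ → ℂ)
    (h : ∀ u, Function.Surjective (evMap w Z u) ∨ Function.Injective (evMap w Z u)) :
    MultiHilb w (genericHF w r) :=
  ⟨idealOfPoints w Z, isHomogIdeal_idealOfPoints w Z, fun u => by
    rcases h u with h | h
    · rw [(hilbertFn_of_surjective h).1, (hilbertFn_of_surjective h).2]
    · exact hilbertFn_of_injective h⟩

lemma isSaturated_idealOfPoints {B : Ideal (MvPolynomial σ ℂ)}
    (hB : ∀ i, ∃ b ∈ B, (∃ v : M, b ∈ piece w v) ∧ eval (Z i) b ≠ 0) :
    IsSaturated B (idealOfPoints w Z) := by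
  intro f ⟨k, hk⟩
  refine IsHomogIdeal.mem_of_components (w := w) fun u => ?_
  rw [mem_idealOfPoints_iff (weightedHomogeneousComponent_mem w f u)]
  intro i
  obtain ⟨b, hb, ⟨v, hv⟩, hbi⟩ := hB i
  have h1 : b ^ k * f ∈ idealOfPoints w Z := hk _ (Ideal.pow_mem_pow hb k)
  have h2 : b ^ k ∈ piece w (k • v) := IsWeightedHomogeneous.pow hv k
  have h3 := isHomogIdeal_idealOfPoints w Z _ h1 (k • v + u)
  rw [component_mul_of_mem h2] at h3
  have h4 := eval_eq_zero_of_mem_idealOfPoints h3 i
  rw [map_mul, map_pow] at h4
  rcases mul_eq_zero.1 h4 with h | h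
  · exact absurd (eq_zero_of_pow_eq_zero h) hbi
  · exact h

end Pool.Agent.BorderVSP
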