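import Pool.Agent.helper92.VSP.Limit

/-!
# The Cox ring of `ℙ^m × ℙ^n`
-/

set_option autoImplicit false

open MvPolynomial

noncomputable section

namespace Pool.Agent.BorderVSP

variable {m n : ℕ}

lemma weight_prodDegree (d : Fin (m + 1) ⊕ Fin (n + 1) →₀ ℕ) :
    Finsupp.weight (prodDegree m n) d =
      ((∑ i, (d (Sum.inl i) : ℤ)), (∑ j, (d (Sum.inr j) : ℤ))) := by
  rw [Finsupp.weight_apply, Finsupp.sum_fintype _ _ (by simp), Fintype.sum_sum_type]
  simp [prodDegree, Prod.ext_iff, Prod.fst_sum, Prod.snd_sum]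

lemma weight_nonneg (d : Fin (m + 1) ⊕ Fin (n + 1) →₀ ℕ) :
    0 ≤ (Finsupp.weight (prodDegree m n) d).1 ∧ 0 ≤ (Finsupp.weight (prodDegree m n) d).2 := by
  rw [weight_prodDegree]
  constructor
  · dsimp only; positivity
  · dsimp only; positivity

/-- Exponents of bidegree `(a, b)` are pairs of exponents. -/
def expoEquiv (m n a b : ℕ) : Expo (prodDegree m n) ((a : ℤ), (b : ℤ)) ≃
    {p : (Fin (m + 1) → ℕ) × (Fin (n + 1) → ℕ) //
      p ∈ Finset.Nat.antidiagonalTuple (m + 1) a ×ˢ Finset.Nat.antidiagonalTuple (n + 1) b} where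
  toFun d := ⟨(fun i => d.1 (Sum.inl i), fun j => d.1 (Sum.inr j)), by
    have h := d.2
    rw [weight_prodDegree, Prod.mk.injEq] at h
    rw [Finset.mem_product, Finset.Nat.mem_antidiagonalTuple, Finset.Nat.mem_antidiagonalTuple]
    exact ⟨by exact_mod_cast h.1, by exact_mod_cast h.2⟩⟩
  invFun p := ⟨Finsupp.equivFunOnFinite.symm (Sum.elim p.1.1 p.1.2), by
    have h := p.2
    rw [Finset.mem_product, Finset.Nat.mem_antidiagonalTuple,
      Finset.Nat.mem_antidiagonalTuple] at h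
    rw [weight_prodDegree, Prod.mk.injEq]
    simp only [Finsupp.equivFunOnFinite_symm_apply_apply, Sum.elim_inl, Sum.elim_inr]
    exact ⟨by exact_mod_cast h.1, by exact_mod_cast h.2⟩⟩
  left_inv d := by
    apply Subtype.ext
    ext s
    rcases s with i | j <;> simp
  right_inv p := by
    apply Subtype.ext
    simp

lemma card_expo (m n a b : ℕ) : Nat.card (Expo (prodDegree m n) ((a : ℤ), (b : ℤ))) =
    (Finset.Nat.antidiagonalTuple (m + 1) a).card *
      (Finset.Nat.antidiagonalTuple (n + 1) b).card := by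
  rw [Nat.card_congr (expoEquiv m n a b), Nat.card_eq_fintype_card, Fintype.card_coe,
    Finset.card_product]

instance finite_expo_prod (u : ℤ × ℤ) : Finite (Expo (prodDegree m n) u) := by
  obtain ⟨a, b⟩ := u
  by_cases ha : 0 ≤ a
  · by_cases hb : 0 ≤ b
    · obtain ⟨a, rfl⟩ := Int.eq_ofNat_of_zero_le ha
      obtain ⟨b, rfl⟩ := Int.eq_ofNat_of_zero_le hb
      exact Finite.of_equiv _ (expoEquiv m n a b).symm
    · have : IsEmpty (Expo (prodDegree m n) (a, b)) :=
        ⟨fun d => hb (by have := (weight_nonneg d.1).2; rwa [d.2] at this)⟩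
      infer_instance
  · have : IsEmpty (Expo (prodDegree m n) (a, b)) :=
      ⟨fun d => ha (by have := (weight_nonneg d.1).1; rwa [d.2] at this)⟩
    infer_instance

lemma eq_zero_of_neg {u : ℤ × ℤ} (hu : u.1 < 0 ∨ u.2 < 0)
    {f : MvPolynomial (Fin (m + 1) ⊕ Fin (n + 1)) ℂ} (hf : f ∈ piece (prodDegree m n) u) :
    f = 0 := by
  ext d
  rw [coeff_zero]
  by_contra hd
  have h := weight_nonneg d
  rw [hf hd] at h
  omega

lemma X_inl_mem (i : Fin (m + 1)) :
    (X (Sum.inl i) : MvPolynomial (Fin (m + 1) ⊕ Fin (n + 1)) ℂ) ∈ piece (prodDegree m n) (1, 0) :=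
  isWeightedHomogeneous_X ℂ (prodDegree m n) (Sum.inl i)

lemma X_inr_mem (j : Fin (n + 1)) :
    (X (Sum.inr j) : MvPolynomial (Fin (m + 1) ⊕ Fin (n + 1)) ℂ) ∈ piece (prodDegree m n) (0, 1) :=
  isWeightedHomogeneous_X ℂ (prodDegree m n) (Sum.inr j)

lemma mul_mem_piece {σ M : Type} [AddCommGroup M] {w : σ → M} {u v t : M}
    {f g : MvPolynomial σ ℂ} (hf : f ∈ piece w u) (hg : g ∈ piece w v) (h : u + v = t) :
    f * g ∈ piece w t := by
  subst h; exact IsWeightedHomogeneous.mul hf hg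

lemma C_mem_piece {σ M : Type} [AddCommGroup M] {w : σ → M} (a : ℂ) :
    (C a : MvPolynomial σ ℂ) ∈ piece w 0 := isWeightedHomogeneous_C w a

/-- `S_{u + (1, 0)} = Σ y_i S_u`. -/
lemma exists_sum_inl {u : ℤ × ℤ} (hu : 0 ≤ u.1)
    {f : MvPolynomial (Fin (m + 1) ⊕ Fin (n + 1)) ℂ}
    (hf : f ∈ piece (prodDegree m n) ((1, 0) + u)) :
    ∃ g : Fin (m + 1) → MvPolynomial (Fin (m + 1) ⊕ Fin (n + 1)) ℂ,
      (∀ i, g i ∈ piece (prodDegree m n) u) ∧ f = ∑ i, X (Sum.inl i) * g i := by
  classical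
  refine IsWeightedHomogeneous.induction_on (w := prodDegree m n) (motive := fun f _ =>
    ∃ g : Fin (m + 1) → MvPolynomial (Fin (m + 1) ⊕ Fin (n + 1)) ℂ,
      (∀ i, g i ∈ piece (prodDegree m n) u) ∧ f = ∑ i, X (Sum.inl i) * g i) ?_ ?_ ?_ hf
  · exact ⟨0, fun i => Submodule.zero_mem _, by simp⟩
  · rintro p q hp hq ⟨g, hg, rfl⟩ ⟨g', hg', rfl⟩
    refine ⟨g + g', fun i => Submodule.add_mem _ (hg i) (hg' i), ?_⟩
    rw [← Finset.sum_add_distrib]
    exact Finset.sum_congr rfl fun i _ => (mul_add _ _ _).symm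
  · intro d a hd
    obtain ⟨i, hi⟩ : ∃ i, d (Sum.inl i) ≠ 0 := by
      by_contra hcon
      push Not at hcon
      rw [weight_prodDegree] at hd
      have h1 := congrArg Prod.fst hd
      simp only [hcon, Nat.cast_zero, Finset.sum_const_zero, Prod.fst_add] at h1
      omega
    have hle : Finsupp.single (Sum.inl i) 1 ≤ d := by
      rw [Finsupp.single_le_iff]; omega
    refine ⟨fun k => if k = i then monomial (d - Finsupp.single (Sum.inl i) 1) a else 0,
      fun k => ?_, ?_⟩
    · dsimp only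
      split_ifs with hk
      · refine isWeightedHomogeneous_monomial _ _ _ ?_
        have h2 : Finsupp.weight (prodDegree m n) (Finsupp.single (Sum.inl i) 1) +
            Finsupp.weight (prodDegree m n) (d - Finsupp.single (Sum.inl i) 1) = (1, 0) + u := by
          rw [← map_add, add_tsub_cancel_of_le hle, hd]
        have h3 : Finsupp.weight (prodDegree m n) (Finsupp.single (Sum.inl i) 1) = (1, 0) := by
          rw [Finsupp.weight_single]; simp [prodDegree]
        rw [h3] at h2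
        exact add_left_cancel h2
      · exact Submodule.zero_mem _
    · rw [Finset.sum_eq_single i]
      · simp only [if_true]
        rw [X, monomial_mul, one_mul, add_tsub_cancel_of_le hle]
      · intro k _ hk
        simp only [if_neg hk, mul_zero]
      · intro h; exact absurd (Finset.mem_univ _) h

/-- `S_{u + (0, 1)} = Σ z_j S_u`. -/
lemma exists_sum_inr {u : ℤ × ℤ} (hu : 0 ≤ u.2)
    {f : MvPolynomial (Fin (m + 1) ⊕ Fin (n + 1)) ℂ}
    (hf : f ∈ piece (prodDegree m n) ((0, 1) + u)) :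
    ∃ g : Fin (n + 1) → MvPolynomial (Fin (m + 1) ⊕ Fin (n + 1)) ℂ,
      (∀ i, g i ∈ piece (prodDegree m n) u) ∧ f = ∑ i, X (Sum.inr i) * g i := by
  classical
  refine IsWeightedHomogeneous.induction_on (w := prodDegree m n) (motive := fun f _ =>
    ∃ g : Fin (n + 1) → MvPolynomial (Fin (m + 1) ⊕ Fin (n + 1)) ℂ,
      (∀ i, g i ∈ piece (prodDegree m n) u) ∧ f = ∑ i, X (Sum.inr i) * g i) ?_ ?_ ?_ hf
  · exact ⟨0, fun i => Submodule.zero_mem _, by simp⟩
  · rintro p q hp hq ⟨g, hg, rfl⟩ ⟨g', hg', rfl⟩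
    refine ⟨g + g', fun i => Submodule.add_mem _ (hg i) (hg' i), ?_⟩
    rw [← Finset.sum_add_distrib]
    exact Finset.sum_congr rfl fun i _ => (mul_add _ _ _).symm
  · intro d a hd
    obtain ⟨i, hi⟩ : ∃ i, d (Sum.inr i) ≠ 0 := by
      by_contra hcon
      push Not at hcon
      rw [weight_prodDegree] at hd
      have h1 := congrArg Prod.snd hd
      simp only [hcon, Nat.cast_zero, Finset.sum_const_zero, Prod.snd_add] at h1
      omega
    have hle : Finsupp.single (Sum.inr i) 1 ≤ d := by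
      rw [Finsupp.single_le_iff]; omega
    refine ⟨fun k => if k = i then monomial (d - Finsupp.single (Sum.inr i) 1) a else 0,
      fun k => ?_, ?_⟩
    · dsimp only
      split_ifs with hk
      · refine isWeightedHomogeneous_monomial _ _ _ ?_
        have h2 : Finsupp.weight (prodDegree m n) (Finsupp.single (Sum.inr i) 1) +
            Finsupp.weight (prodDegree m n) (d - Finsupp.single (Sum.inr i) 1) = (0, 1) + u := by
          rw [← map_add, add_tsub_cancel_of_le hle, hd]
        have h3 : Finsupp.weight (prodDegree m n) (Finsupp.single (Sum.inr i) 1) = (0, 1) := by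
          rw [Finsupp.weight_single]; simp [prodDegree]
        rw [h3] at h2
        exact add_left_cancel h2
      · exact Submodule.zero_mem _
    · rw [Finset.sum_eq_single i]
      · simp only [if_true]
        rw [X, monomial_mul, one_mul, add_tsub_cancel_of_le hle]
      · intro k _ hk
        simp only [if_neg hk, mul_zero]
      · intro h; exact absurd (Finset.mem_univ _) h

lemma eq_C_of_mem_piece_zero {f : MvPolynomial (Fin (m + 1) ⊕ Fin (n + 1)) ℂ}
    (hf : f ∈ piece (prodDegree m n) (0, 0)) : f = C (coeff 0 f) := by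
  classical
  ext d
  rw [coeff_C]
  split_ifs with h
  · rw [h]
  · by_contra hd
    have h1 := hf hd
    rw [weight_prodDegree, Prod.mk.injEq] at h1
    apply h
    ext s
    rw [Finsupp.coe_zero, Pi.zero_apply]
    rcases s with i | j
    · have h2 : ∑ i, d (Sum.inl i) = 0 := by exact_mod_cast h1.1
      exact ((Finset.sum_eq_zero_iff.1 h2) i (Finset.mem_univ _)).symm
    · have h2 : ∑ i, d (Sum.inr i) = 0 := by exact_mod_cast h1.2
      exact ((Finset.sum_eq_zero_iff.1 h2) j (Finset.mem_univ _)).symm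

lemma exists_linear_inr {f : MvPolynomial (Fin (m + 1) ⊕ Fin (n + 1)) ℂ}
    (hf : f ∈ piece (prodDegree m n) (0, 1)) :
    ∃ a : Fin (n + 1) → ℂ, f = ∑ j, C (a j) * X (Sum.inr j) := by
  obtain ⟨g, hg, rfl⟩ := exists_sum_inr (u := (0, 0)) (by simp) (by simpa using hf)
  refine ⟨fun j => coeff 0 (g j), Finset.sum_congr rfl fun j _ => ?_⟩
  rw [← eq_C_of_mem_piece_zero (hg j), mul_comm]

lemma exists_linear_inl {f : MvPolynomial (Fin (m + 1) ⊕ Fin (n + 1)) ℂ}
    (hf : f ∈ piece (prodDegree m n) (1, 0)) :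
    ∃ a : Fin (m + 1) → ℂ, f = ∑ j, C (a j) * X (Sum.inl j) := by
  obtain ⟨g, hg, rfl⟩ := exists_sum_inl (u := (0, 0)) (by simp) (by simpa using hf)
  refine ⟨fun j => coeff 0 (g j), Finset.sum_congr rfl fun j _ => ?_⟩
  rw [← eq_C_of_mem_piece_zero (hg j), mul_comm]

/-! ### Evaluation at points -/

section Eval

variable {r : ℕ} {Z : Fin r → (Fin (m + 1) ⊕ Fin (n + 1)) → ℂ}

lemma evMap_surjective_mul {σ M : Type} [AddCommGroup M] {w : σ → M} {r : ℕ}
    {Z : Fin r → σ → ℂ} {u v t : M} {l : MvPolynomial σ ℂ} (hl : l ∈ piece w v)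
    (hlZ : ∀ i, eval (Z i) l ≠ 0) (ht : v + u = t) (h : Function.Surjective (evMap w Z u)) :
    Function.Surjective (evMap w Z t) := by
  intro a
  obtain ⟨f, hf⟩ := h fun i => a i / eval (Z i) l
  refine ⟨⟨l * f.1, mul_mem_piece hl f.2 ht⟩, ?_⟩
  funext i
  rw [evMap_apply, map_mul, ← evMap_apply f i, hf]
  field_simp [hlZ i]

lemma evMap_injective_of_mul {σ M : Type} [AddCommGroup M] {w : σ → M} {r : ℕ}
    {Z : Fin r → σ → ℂ} {u v t : M} {l : MvPolynomial σ ℂ} (hl : l ∈ piece w v) (hl0 : l ≠ 0)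
    (ht : v + u = t) (h : Function.Injective (evMap w Z t)) :
    Function.Injective (evMap w Z u) := by
  rw [← LinearMap.ker_eq_bot, LinearMap.ker_eq_bot'] at h ⊢
  intro f hf
  have h1 := h ⟨l * f.1, mul_mem_piece hl f.2 ht⟩ (by
    funext i
    rw [evMap_apply, map_mul, ← evMap_apply f i, hf]
    simp)
  have h2 : l * f.1 = 0 := congrArg Subtype.val h1
  exact Subtype.ext ((mul_eq_zero.1 h2).resolve_left hl0)

lemma evMap_surjective_of_dual {σ M : Type} [AddCommGroup M] {w : σ → M} {r : ℕ}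
    {Z : Fin r → σ → ℂ} {u : M} (f : Fin r → MvPolynomial σ ℂ) (hf : ∀ i, f i ∈ piece w u)
    (h0 : ∀ i k, k ≠ i → eval (Z k) (f i) = 0) (h1 : ∀ i, eval (Z i) (f i) ≠ 0) :
    Function.Surjective (evMap w Z u) := by
  intro a
  refine ⟨⟨∑ i, (a i / eval (Z i) (f i)) • f i,
    Submodule.sum_mem _ fun i _ => Submodule.smul_mem _ _ (hf i)⟩, ?_⟩
  funext k
  rw [evMap_apply, map_sum, Finset.sum_eq_single k]
  · rw [smul_eval, div_mul_cancel₀ _ (h1 k)]
  · intro i _ hi
    rw [smul_eval, h0 i k hi.symm, mul_zero]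
  · intro h; exact absurd (Finset.mem_univ _) h

end Eval

end Pool.Agent.BorderVSP
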