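import Pool.Agent.helper92.VSP.Classify

/-!
# An open set of saturated ideals
-/

set_option autoImplicit false

open MvPolynomial

noncomputable section

namespace Pool.Agent.BorderVSP

/-- Multiplication by `l` is onto from degree `u` to degree `v + u`, modulo `J`. -/
def SurjAt (J : Ideal S12) (l : S12) (v u : ℤ × ℤ) : Prop :=
  ∀ f ∈ piece w12 (v + u), ∃ g ∈ piece w12 u, f - l * g ∈ J

/-- Multiplication by `l` is injective in degree `u`, modulo `J`. -/
def InjAt (J : Ideal S12) (l : S12) (u : ℤ × ℤ) : Prop :=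
  ∀ f ∈ piece w12 u, l * f ∈ J → f ∈ J

lemma surjAt_of_complSet {h : ℤ × ℤ → ℕ} {J : MultiHilb w12 h} {l : S12} {v u : ℤ × ℤ}
    (hl : l ∈ piece w12 v) (hh : 4 = h (v + u)) {d : Fin 4 → S12} (hd : ∀ i, d i ∈ piece w12 u)
    (hJ : J ∈ complSet w12 (h := h) (v + u) (fun i => l * d i)) : SurjAt J.1 l v u := by
  intro f hf
  obtain ⟨g, hg, hfg⟩ := exists_sub_mem_of_mem_complSet w12
    (fun i => mul_mem_piece hl (hd i) rfl) hh hJ hf
  obtain ⟨a, rfl⟩ := (Submodule.mem_span_range_iff_exists_fun ℂ).1 hg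
  refine ⟨∑ i, a i • d i, Submodule.sum_mem _ fun i _ => Submodule.smul_mem _ _ (hd i), ?_⟩
  have h1 : l * ∑ i, a i • d i = ∑ i, a i • (l * d i) := by
    rw [Finset.mul_sum]
    exact Finset.sum_congr rfl fun i _ => by rw [mul_smul_comm]
  rw [h1]; exact hfg

lemma SurjAt.inl {J : Ideal S12} {l : S12} {v u : ℤ × ℤ} (h : SurjAt J l v u)
    (hu : 0 ≤ (v + u).1) : SurjAt J l v ((1, 0) + u) := by
  intro f hf
  have h1 : v + ((1, 0) + u) = (1, 0) + (v + u) := by abel
  rw [h1] at hf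
  obtain ⟨p, hp, q, hq, rfl⟩ := exists_Y_mul_add hu hf
  obtain ⟨p', hp', hp''⟩ := h p hp
  obtain ⟨q', hq', hq''⟩ := h q hq
  refine ⟨Y 0 * p' + Y 1 * q', Submodule.add_mem _ (mul_mem_piece (Y_mem 0) hp' rfl)
    (mul_mem_piece (Y_mem 1) hq' rfl), ?_⟩
  have h2 : Y 0 * p + Y 1 * q - l * (Y 0 * p' + Y 1 * q') =
      Y 0 * (p - l * p') + Y 1 * (q - l * q') := by ring
  rw [h2]
  exact J.add_mem (J.mul_mem_left _ hp'') (J.mul_mem_left _ hq'')

lemma SurjAt.inr {J : Ideal S12} {l : S12} {v u : ℤ × ℤ} (h : SurjAt J l v u)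
    (hu : 0 ≤ (v + u).2) : SurjAt J l v ((0, 1) + u) := by
  intro f hf
  have h1 : v + ((0, 1) + u) = (0, 1) + (v + u) := by abel
  rw [h1] at hf
  obtain ⟨p, hp, q, hq, r, hr, rfl⟩ := exists_W_mul_add hu hf
  obtain ⟨p', hp', hp''⟩ := h p hp
  obtain ⟨q', hq', hq''⟩ := h q hq
  obtain ⟨r', hr', hr''⟩ := h r hr
  refine ⟨W 0 * p' + W 1 * q' + W 2 * r', Submodule.add_mem _ (Submodule.add_mem _
    (mul_mem_piece (W_mem 0) hp' rfl) (mul_mem_piece (W_mem 1) hq' rfl))
    (mul_mem_piece (W_mem 2) hr' rfl), ?_⟩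
  have h2 : W 0 * p + W 1 * q + W 2 * r - l * (W 0 * p' + W 1 * q' + W 2 * r') =
      W 0 * (p - l * p') + W 1 * (q - l * q') + W 2 * (r - l * r') := by ring
  rw [h2]
  exact J.add_mem (J.add_mem (J.mul_mem_left _ hp'') (J.mul_mem_left _ hq''))
    (J.mul_mem_left _ hr'')

lemma SurjAt.shift {J : Ideal S12} {l : S12} {v u : ℤ × ℤ} (h : SurjAt J l v u)
    (hu1 : 0 ≤ (v + u).1) (hu2 : 0 ≤ (v + u).2) (a b : ℕ) :
    SurjAt J l v (((a : ℤ), (b : ℤ)) + u) := by
  induction a with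
  | zero =>
    induction b with
    | zero =>
      have h1 : ((((0 : ℕ) : ℤ), ((0 : ℕ) : ℤ)) : ℤ × ℤ) + u = u := by
        apply Prod.ext <;> simp
      rw [h1]; exact h
    | succ b ih =>
      have h1 : ((((0 : ℕ) : ℤ), ((b + 1 : ℕ) : ℤ)) : ℤ × ℤ) + u =
          (0, 1) + ((((0 : ℕ) : ℤ), (b : ℤ)) + u) := by
        apply Prod.ext
        · simp
        · simp only [Prod.snd_add]; push_cast; ring
      rw [h1]
      refine ih.inr ?_
      simp only [Prod.snd_add] at hu2 ⊢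
      omega
  | succ a ih =>
    have h1 : ((((a + 1 : ℕ) : ℤ), (b : ℤ)) : ℤ × ℤ) + u =
        (1, 0) + (((a : ℤ), (b : ℤ)) + u) := by
      apply Prod.ext
      · simp only [Prod.fst_add]; push_cast; ring
      · simp
    rw [h1]
    refine ih.inl ?_
    simp only [Prod.fst_add] at hu1 ⊢
    omega

/-- If the Hilbert function does not change, a surjective multiplication is injective. -/
lemma SurjAt.injAt {J : Ideal S12} {l : S12} {v u : ℤ × ℤ} (hl : l ∈ piece w12 v)
    (h : SurjAt J l v u) (hh : hilbertFn w12 J u = hilbertFn w12 J (v + u)) : InjAt J l u := by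
  set q := Ideal.Quotient.mkₐ ℂ J with hq
  -- multiplication by the class of `l`
  let μ : (S12 ⧸ J) →ₗ[ℂ] (S12 ⧸ J) := LinearMap.mulLeft ℂ (q l)
  have hμ : ∀ x ∈ quotPiece w12 J u, μ x ∈ quotPiece w12 J (v + u) := by
    rintro _ ⟨f, hf, rfl⟩
    refine ⟨l * f, mul_mem_piece hl hf rfl, ?_⟩
    simp [μ, q]
  let ν : quotPiece w12 J u →ₗ[ℂ] quotPiece w12 J (v + u) := μ.restrict hμ
  have hsurj : Function.Surjective ν := by
    rintro ⟨_, f, hf, rfl⟩
    obtain ⟨g, hg, hfg⟩ := h f hf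
    refine ⟨⟨q g, g, hg, rfl⟩, ?_⟩
    apply Subtype.ext
    change q l * q g = q f
    rw [← map_mul]
    exact ((Ideal.Quotient.eq).2 hfg).symm
  have hinj : Function.Injective ν :=
    (LinearMap.injective_iff_surjective_of_finrank_eq_finrank hh).2 hsurj
  intro f hf hlf
  have h1 : ν ⟨q f, f, hf, rfl⟩ = 0 := by
    apply Subtype.ext
    change q l * q f = 0
    rw [← map_mul]
    exact Ideal.Quotient.eq_zero_iff_mem.2 hlf
  have h2 := hinj (h1.trans (map_zero ν).symm)
  have h3 : q f = 0 := congrArg Subtype.val h2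
  exact Ideal.Quotient.eq_zero_iff_mem.1 h3

/-- The generic Hilbert function is `4` in most degrees. -/
lemma genericHF_eq_four {u : ℤ × ℤ} (h : Function.Surjective (evMap w12 satPts u)) :
    genericHF w12 4 u = 4 := (hilbertFn_of_surjective h).2

/-- Dual forms of degree `(3, 0)` for `satPts`. -/
def satDual30 (i : Fin 4) : S12 :=
  ∏ j ∈ Finset.univ.erase i, (C (satPts j (Sum.inl 1)) * Y 0 - C (satPts j (Sum.inl 0)) * Y 1)

lemma satDual30_mem (i : Fin 4) : satDual30 i ∈ piece w12 (3, 0) := by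
  have h1 : ∀ j ∈ Finset.univ.erase i, IsWeightedHomogeneous w12
      (C (satPts j (Sum.inl 1)) * Y 0 - C (satPts j (Sum.inl 0)) * Y 1 : S12)
      ((1, 0) : ℤ × ℤ) := by
    intro j _
    exact (IsWeightedHomogeneous.C_mul (Y_mem 0) _).sub (IsWeightedHomogeneous.C_mul (Y_mem 1) _)
  have h2 := IsWeightedHomogeneous.prod (Finset.univ.erase i) _ _ h1
  rw [Finset.sum_const, Finset.card_erase_of_mem (Finset.mem_univ _)] at h2
  rw [satDual30]
  simpa using h2

lemma satDual30_zero (i k : Fin 4) (hk : k ≠ i) : eval (satPts k) (satDual30 i) = 0 := by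
  rw [satDual30, map_prod]
  refine Finset.prod_eq_zero (i := k) (by simp [hk]) ?_
  simp only [map_sub, map_mul, eval_C, eval_X]
  ring

lemma satDual30_ne (i : Fin 4) : eval (satPts i) (satDual30 i) ≠ 0 := by
  rw [satDual30, map_prod, Finset.prod_ne_zero_iff]
  intro j hj
  rw [Finset.mem_erase] at hj
  simp only [map_sub, map_mul, eval_C, eval_X]
  intro h
  refine satPts_good.det i j (Ne.symm hj.1) ?_
  linear_combination h

/-- A linear form in the second set of variables without zeros at `satPts`. -/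
def zs : S12 := W 0 + W 2

lemma zs_mem : zs ∈ piece w12 (0, 1) := Submodule.add_mem _ (W_mem 0) (W_mem 2)

lemma Y0_ne (i : Fin 4) : eval (satPts i) (Y 0) ≠ 0 := by
  fin_cases i <;> simp [satPts]

lemma zs_ne (i : Fin 4) : eval (satPts i) zs ≠ 0 := by
  fin_cases i <;> simp [satPts, zs]

/-- An open set of ideals, all of whose members apolar to the example are saturated. -/
def openSat : Set (MultiHilb w12 (genericHF w12 4)) :=
  (complSet w12 ((1, 0) + (0, 2)) (fun i => Y 0 * satDual02 i) ∩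
    complSet w12 ((1, 0) + (1, 1)) (fun i => Y 0 * satDual11 i)) ∩
  (complSet w12 ((1, 0) + (3, 0)) (fun i => Y 0 * satDual30 i) ∩
    complSet w12 ((0, 1) + (3, 0)) (fun i => zs * satDual30 i))

lemma surj_02 : Function.Surjective (evMap w12 satPts (0, 2)) := satPts_good.s02
lemma surj_11 : Function.Surjective (evMap w12 satPts (1, 1)) := satPts_good.s11
lemma surj_30 : Function.Surjective (evMap w12 satPts (3, 0)) :=
  evMap_surjective_30 satPts_good.det

lemma isOpen_complSet_four {u v : ℤ × ℤ} {l : S12} (hl : l ∈ piece w12 v)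
    (hlZ : ∀ i, eval (satPts i) l ≠ 0)
    (h : Function.Surjective (evMap w12 satPts u)) {d : Fin 4 → S12}
    (hd : ∀ i, d i ∈ piece w12 u) :
    IsOpen (complSet w12 (h := genericHF w12 4) (v + u) (fun i => l * d i)) := by
  refine isOpen_complSet w12 (v + u) _ (fun i => mul_mem_piece hl (hd i) rfl) ?_
  rw [← frameSize_add w12 satPoint (v + u),
    genericHF_eq_four (evMap_surjective_mul hl hlZ rfl h)]

lemma isOpen_openSat : IsOpen openSat := by
  refine IsOpen.inter (IsOpen.inter ?_ ?_) (IsOpen.inter ?_ ?_)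
  · exact isOpen_complSet_four (Y_mem 0) Y0_ne surj_02 satDual02_mem
  · exact isOpen_complSet_four (Y_mem 0) Y0_ne surj_11 satDual11_mem
  · exact isOpen_complSet_four (Y_mem 0) Y0_ne surj_30 satDual30_mem
  · exact isOpen_complSet_four zs_mem zs_ne surj_30 satDual30_mem

lemma satPoint_mem_complSet {u v : ℤ × ℤ} {l : S12}
    (hlZ : ∀ i, eval (satPts i) l ≠ 0) {d : Fin 4 → S12}
    (h0 : ∀ i k, k ≠ i → eval (satPts k) (d i) = 0) (h1 : ∀ i, eval (satPts i) (d i) ≠ 0) :
    satPoint ∈ complSet w12 (h := genericHF w12 4) (v + u) (fun i => l * d i) := by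
  refine mem_complSet_of_dual (Z := satPts) _ (fun i k hk => ?_) (fun i => ?_) le_rfl
  · rw [map_mul, h0 i k hk, mul_zero]
  · rw [map_mul]; exact mul_ne_zero (hlZ i) (h1 i)

lemma satPoint_mem_openSat : satPoint ∈ openSat :=
  ⟨⟨satPoint_mem_complSet Y0_ne satDual02_zero satDual02_ne,
    satPoint_mem_complSet Y0_ne satDual11_zero satDual11_ne⟩,
    satPoint_mem_complSet Y0_ne satDual30_zero satDual30_ne,
    satPoint_mem_complSet zs_ne satDual30_zero satDual30_ne⟩

/-- Shifting a surjective multiplication in the stable range makes it injective. -/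
lemma injAt_shift {J : MultiHilb w12 (genericHF w12 4)} {l : S12} {v u : ℤ × ℤ}
    (hl : l ∈ piece w12 v) (hlZ : ∀ i, eval (satPts i) l ≠ 0)
    (h : SurjAt J.1 l v u) (hs : Function.Surjective (evMap w12 satPts u))
    (hu1 : 0 ≤ (v + u).1) (hu2 : 0 ≤ (v + u).2) (a b : ℕ) :
    InjAt J.1 l (((a : ℤ), (b : ℤ)) + u) := by
  have hpow : Y 0 ^ a * zs ^ b ∈ piece w12 ((a : ℤ), (b : ℤ)) := by
    have h1 : Y 0 ^ a ∈ piece w12 ((a : ℤ), 0) := by
      have := IsWeightedHomogeneous.pow (Y_mem 0) a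
      simpa using this
    have h2 : zs ^ b ∈ piece w12 (0, (b : ℤ)) := by
      have := IsWeightedHomogeneous.pow zs_mem b
      simpa using this
    exact mul_mem_piece h1 h2 (by simp)
  have hpowZ : ∀ i, eval (satPts i) (Y 0 ^ a * zs ^ b) ≠ 0 := by
    intro i
    rw [map_mul, map_pow, map_pow]
    exact mul_ne_zero (pow_ne_zero _ (Y0_ne i)) (pow_ne_zero _ (zs_ne i))
  have hs1 : Function.Surjective (evMap w12 satPts (((a : ℤ), (b : ℤ)) + u)) :=
    evMap_surjective_mul hpow hpowZ rfl hs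
  have hs2 : Function.Surjective (evMap w12 satPts (v + (((a : ℤ), (b : ℤ)) + u))) :=
    evMap_surjective_mul hl hlZ rfl hs1
  refine SurjAt.injAt hl (h.shift hu1 hu2 a b) ?_
  rw [J.2.2, J.2.2, genericHF_eq_four hs1, genericHF_eq_four hs2]

theorem isSaturated_of_mem_openSat {J : MultiHilb w12 (genericHF w12 4)} (hJ : J ∈ openSat)
    (hann : ∀ g ∈ J.1, apolar g exampleForm = 0) : IsSaturated B12 J.1 := by
  obtain ⟨⟨hc1, hc2⟩, hc4, hd3⟩ := hJ
  have s1 : SurjAt J.1 (Y 0) (1, 0) (0, 2) := surjAt_of_complSet (Y_mem 0)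
    (genericHF_eq_four (evMap_surjective_mul (Y_mem 0) Y0_ne rfl surj_02)).symm satDual02_mem hc1
  have s2 : SurjAt J.1 (Y 0) (1, 0) (1, 1) := surjAt_of_complSet (Y_mem 0)
    (genericHF_eq_four (evMap_surjective_mul (Y_mem 0) Y0_ne rfl surj_11)).symm satDual11_mem hc2
  have s4 : SurjAt J.1 (Y 0) (1, 0) (3, 0) := surjAt_of_complSet (Y_mem 0)
    (genericHF_eq_four (evMap_surjective_mul (Y_mem 0) Y0_ne rfl surj_30)).symm satDual30_mem hc4
  have s3 : SurjAt J.1 zs (0, 1) (3, 0) := surjAt_of_complSet zs_mem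
    (genericHF_eq_four (evMap_surjective_mul zs_mem zs_ne rfl surj_30)).symm satDual30_mem hd3
  -- `y₀` is injective in all degrees
  have hY : ∀ u, InjAt J.1 (Y 0) u := by
    rintro ⟨a, b⟩ f hf hlf
    by_cases hneg : a < 0 ∨ b < 0
    · rw [eq_zero_of_neg (m := 1) (n := 2) hneg hf]; exact J.1.zero_mem
    push Not at hneg
    obtain ⟨a, rfl⟩ := Int.eq_ofNat_of_zero_le hneg.1
    obtain ⟨b, rfl⟩ := Int.eq_ofNat_of_zero_le hneg.2
    by_cases h2 : 2 ≤ b
    · have h := injAt_shift (J := J) (Y_mem 0) Y0_ne s1 surj_02 (by simp) (by simp) a (b - 2)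
      refine h f ?_ hlf
      convert hf using 2
      apply Prod.ext
      · simp
      · simp only [Prod.snd_add]; omega
    by_cases h3 : 3 ≤ a
    · have h := injAt_shift (J := J) (Y_mem 0) Y0_ne s4 surj_30 (by simp) (by simp) (a - 3) b
      refine h f ?_ hlf
      convert hf using 2
      apply Prod.ext
      · simp only [Prod.fst_add]; omega
      · simp
    by_cases h4 : b = 0
    · subst h4
      have h5 : Y 0 ^ (2 - a) * (Y 0 * f) ∈ piece w12 (3, 0) := by
        have h1 : Y 0 ^ (2 - a) ∈ piece w12 (((2 - a : ℕ) : ℤ), 0) := by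
          have := IsWeightedHomogeneous.pow (Y_mem 0) (2 - a)
          simpa using this
        refine mul_mem_piece h1 (mul_mem_piece (Y_mem 0) hf rfl) ?_
        apply Prod.ext
        · simp only [Prod.fst_add]; omega
        · simp
      have h6 := eq_zero_of_mem_30 J (J.1.mul_mem_left _ hlf) h5
      have h7 : f = 0 := by
        have := (mul_eq_zero.1 h6).resolve_left (pow_ne_zero _ (X_ne_zero _))
        exact (mul_eq_zero.1 this).resolve_left (X_ne_zero _)
      rw [h7]; exact J.1.zero_mem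
    obtain rfl : b = 1 := by omega
    by_cases h5 : 1 ≤ a
    · have h := injAt_shift (J := J) (Y_mem 0) Y0_ne s2 surj_11 (by simp) (by simp) (a - 1) 0
      refine h f ?_ hlf
      convert hf using 2
      apply Prod.ext
      · simp only [Prod.fst_add]; omega
      · simp
    obtain rfl : a = 0 := by omega
    obtain ⟨p, q, r, rfl⟩ := exists_linW hf
    have h6 : Y 0 * (C p * W 0 + C q * W 1 + C r * W 2) ∈ piece w12 (1, 1) :=
      mul_mem_piece (Y_mem 0) hf (by simp)
    obtain ⟨α, β, h7⟩ := ann_11 h6 (hann _ hlf)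
    have e1 := congrArg (eval (Sum.elim ![1, 0] ![1, 0, 0] : Fin 2 ⊕ Fin 3 → ℂ)) h7
    have e2 := congrArg (eval (Sum.elim ![1, 0] ![0, 0, 1] : Fin 2 ⊕ Fin 3 → ℂ)) h7
    have e3 := congrArg (eval (Sum.elim ![1, 0] ![0, 1, 0] : Fin 2 ⊕ Fin 3 → ℂ)) h7
    have e4 := congrArg (eval (Sum.elim ![0, 1] ![1, 0, 0] : Fin 2 ⊕ Fin 3 → ℂ)) h7
    simp at e1 e2 e3 e4
    rw [e1, e2, e3, e4]
    simp
  -- `zs` is injective in all degrees
  have hzs : ∀ u, InjAt J.1 zs u := by
    rintro ⟨a, b⟩ f hf hlf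
    by_cases hneg : a < 0 ∨ b < 0
    · rw [eq_zero_of_neg (m := 1) (n := 2) hneg hf]; exact J.1.zero_mem
    push Not at hneg
    obtain ⟨a, rfl⟩ := Int.eq_ofNat_of_zero_le hneg.1
    obtain ⟨b, rfl⟩ := Int.eq_ofNat_of_zero_le hneg.2
    have h := injAt_shift (J := J) zs_mem zs_ne s3 surj_30 (by simp) (by simp) a b
    have hY3 : ∀ k : ℕ, ∀ f ∈ piece w12 ((a : ℤ), (b : ℤ)), Y 0 ^ k * f ∈ J.1 → f ∈ J.1 := by
      intro k
      induction k with
      | zero => intro f _ hf; simpa using hf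
      | succ k ih =>
        intro f hf hkf
        refine ih f hf (hY ((((k : ℕ) : ℤ), 0) + ((a : ℤ), (b : ℤ))) _ ?_ ?_)
        · refine mul_mem_piece ?_ hf rfl
          have := IsWeightedHomogeneous.pow (Y_mem 0) k
          simpa using this
        · rw [← mul_assoc, ← pow_succ']; exact hkf
    refine hY3 3 f hf (h _ ?_ ?_)
    · refine mul_mem_piece (u := (3, 0)) ?_ hf (by abel)
      have := IsWeightedHomogeneous.pow (Y_mem 0) 3
      simpa using this
    · have h1 : zs * (Y 0 ^ 3 * f) = Y 0 ^ 3 * (zs * f) := by ring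
      rw [h1]; exact J.1.mul_mem_left _ hlf
  refine isSaturated_of_nonzerodivisor (w := w12) (b := Y 0 * zs) (v := (1, 1)) J.2.1
    (mul_mem_B12 (Y_mem 0) zs_mem) (mul_mem_piece (Y_mem 0) zs_mem (by simp)) ?_
  intro u f hf hbf
  rw [mul_assoc] at hbf
  exact hzs u f hf (hY _ _ (mul_mem_piece zs_mem hf rfl) hbf)

end Pool.Agent.BorderVSP
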